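import Pool.Agent.J6H98.MK.Stm

/-!
# Module MK-ALG (helper48): the elimination

The recursion for `W` and the equations of the conclusion lead to polynomial equations in `c`
which have no common zero.
-/

set_option autoImplicit false

namespace Pool.Agent.J6H98.MK

/-- the first equation -/
theorem alg_two {K : Type} [Field K] (c P2 P3 P4 W1 W2 W3 W4 : K)
    (Q2 : 2 * P2 = 3 * c ^ 2 - 1) (Q3 : 2 * P3 = 5 * c ^ 3 - 3 * c)
    (Q4 : 8 * P4 = 35 * c ^ 4 - 30 * c ^ 2 + 3)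
    (H2 : 3 * (c - P2) + 4 * (W1 - W2) = 0) (H3 : 5 * (P2 - P3) + 6 * (W2 - W3) = 0)
    (H4 : 7 * (P3 - P4) + 8 * (W3 - W4) = 0)
    (R1 : 5 * W3 = 8 * c * W2 - 3 * W1) (R2 : 7 * W4 = 12 * c * W3 - 5 * W2) :
    2 * ((1 - c) ^ 2 * (345 * c ^ 2 + 430 * c + 77)) = 0 := by
  linear_combination 192 * 3 * R1 - 192 * 2 * R2 +
    8 * (-54 * H2 + 4 * (1 + 24 * c) * H3 - 42 * H4) +
    4 * (-162 * Q2 - 20 * (1 + 24 * c) * (Q2 - Q3) + 294 * Q3) - 294 * Q4

/-- the second equation -/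
theorem alg_three {K : Type} [Field K] (c P2 P3 P4 P5 W2 W3 W4 W5 : K)
    (Q2 : 2 * P2 = 3 * c ^ 2 - 1) (Q3 : 2 * P3 = 5 * c ^ 3 - 3 * c)
    (Q4 : 8 * P4 = 35 * c ^ 4 - 30 * c ^ 2 + 3)
    (Q5 : 8 * P5 = 63 * c ^ 5 - 70 * c ^ 3 + 15 * c)
    (H3 : 5 * (P2 - P3) + 6 * (W2 - W3) = 0)
    (H4 : 7 * (P3 - P4) + 8 * (W3 - W4) = 0) (H5 : 9 * (P4 - P5) + 10 * (W4 - W5) = 0)
    (R2 : 7 * W4 = 12 * c * W3 - 5 * W2) (R3 : 9 * W5 = 16 * c * W4 - 7 * W3) :
    (1 - c) ^ 2 * (7308 * c ^ 3 + 9681 * c ^ 2 + 1234 * c - 1063) = 0 := by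
  linear_combination 960 * (4 * R2 - 3 * R3) +
    8 * (-400 * H3 + 15 * (1 + 48 * c) * H4 - 324 * H5) +
    (8000 * (Q2 - Q3) - 105 * (1 + 48 * c) * (4 * Q3 - Q4) + 2916 * (Q4 - Q5))

/-- the third equation -/
theorem alg_four {K : Type} [Field K] (c P3 P4 P5 P6 W3 W4 W5 W6 : K)
    (Q3 : 2 * P3 = 5 * c ^ 3 - 3 * c)
    (Q4 : 8 * P4 = 35 * c ^ 4 - 30 * c ^ 2 + 3)
    (Q5 : 8 * P5 = 63 * c ^ 5 - 70 * c ^ 3 + 15 * c)
    (Q6 : 16 * P6 = 231 * c ^ 6 - 315 * c ^ 4 + 105 * c ^ 2 - 5)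
    (H4 : 7 * (P3 - P4) + 8 * (W3 - W4) = 0) (H5 : 9 * (P4 - P5) + 10 * (W4 - W5) = 0)
    (H6 : 11 * (P5 - P6) + 12 * (W5 - W6) = 0)
    (R3 : 9 * W5 = 16 * c * W4 - 7 * W3) (R4 : 11 * W6 = 20 * c * W5 - 9 * W4) :
    2 * ((1 - c) ^ 2 *
      (14700 * c ^ 4 + 20076 * c ^ 3 + 357 * c ^ 2 - 5702 * c - 751)) = 0 := by
  linear_combination 1920 * (5 * R3 - 4 * R4) +
    16 * (-525 * H4 + 12 * (1 + 80 * c) * H5 - 440 * H6) +
    (3675 * (8 * Q3 - 2 * Q4) - 108 * (1 + 80 * c) * (2 * Q4 - 2 * Q5) + 4840 * (2 * Q5 - Q6))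

theorem t_ALG : S_ALG := by
  intro p hpf hp c P W hc hP0 hP1 hP hW hall
  have hpp : p.Prime := hpf.out
  have hne : ∀ n : ℕ, 0 < n → n < 13 → ((n : ℕ) : ZMod p) ≠ 0 := by
    intro n h0 h1 h
    rw [ZMod.natCast_eq_zero_iff] at h
    exact absurd (Nat.le_of_dvd h0 h) (by omega)
  have n2 : (2 : ZMod p) ≠ 0 := by exact_mod_cast hne 2 (by norm_num) (by norm_num)
  have n3 : (3 : ZMod p) ≠ 0 := by exact_mod_cast hne 3 (by norm_num) (by norm_num)
  have n5 : (5 : ZMod p) ≠ 0 := by exact_mod_cast hne 5 (by norm_num) (by norm_num)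
  have h1c : (1 - c : ZMod p) ≠ 0 := sub_ne_zero.mpr (fun h => hc h.symm)
  have a0 := hP 0
  have a1 := hP 1
  have a2 := hP 2
  have a3 := hP 3
  have a4 := hP 4
  norm_num at a0 a1 a2 a3 a4
  rw [hP0, hP1] at a0
  rw [hP1] at a1
  have Q2 : 2 * P 2 = 3 * c ^ 2 - 1 := by linear_combination a0
  have Q3 : 2 * P 3 = 5 * c ^ 3 - 3 * c := by
    apply mul_left_cancel₀ n3
    linear_combination 2 * a1 + 5 * c * Q2
  have Q4 : 8 * P 4 = 35 * c ^ 4 - 30 * c ^ 2 + 3 := by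
    linear_combination 2 * a2 + 7 * c * Q3 - 3 * Q2
  have Q5 : 8 * P 5 = 63 * c ^ 5 - 70 * c ^ 3 + 15 * c := by
    apply mul_left_cancel₀ n5
    linear_combination 8 * a3 + 9 * c * Q4 - 16 * Q3
  have Q6 : 16 * P 6 = 231 * c ^ 6 - 315 * c ^ 4 + 105 * c ^ 2 - 5 := by
    apply mul_left_cancel₀ n3
    linear_combination 8 * a4 + 11 * c * Q5 - 5 * Q4
  have b1 := hW 1
  have b2 := hW 2
  have b3 := hW 3
  have b4 := hW 4
  norm_num at b1 b2 b3 b4
  have R1 : 5 * W 3 = 8 * c * W 2 - 3 * W 1 := by linear_combination b1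
  have R2 : 7 * W 4 = 12 * c * W 3 - 5 * W 2 := by linear_combination b2
  have R3 : 9 * W 5 = 16 * c * W 4 - 7 * W 3 := by linear_combination b3
  have R4 : 11 * W 6 = 20 * c * W 5 - 9 * W 4 := by linear_combination b4
  have c0 := hall 0 (by omega)
  have c1 := hall 1 (by omega)
  have c2 := hall 2 (by omega)
  have c3 := hall 3 (by omega)
  norm_num at c0 c1 c2 c3
  rw [hP1] at c0
  have H2 : 3 * (c - P 2) + 4 * (W 1 - W 2) = 0 := by linear_combination c0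
  have H3 : 5 * (P 2 - P 3) + 6 * (W 2 - W 3) = 0 := by linear_combination c1
  have H4 : 7 * (P 3 - P 4) + 8 * (W 3 - W 4) = 0 := by linear_combination c2
  have H5 : 9 * (P 4 - P 5) + 10 * (W 4 - W 5) = 0 := by linear_combination c3
  have eA : 345 * c ^ 2 + 430 * c + 77 = 0 := by
    have := alg_two c (P 2) (P 3) (P 4) (W 1) (W 2) (W 3) (W 4) Q2 Q3 Q4 H2 H3 H4 R1 R2
    rcases mul_eq_zero.mp this with h | h
    · exact absurd h n2
    · rcases mul_eq_zero.mp h with h | h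
      · exact absurd h (pow_ne_zero 2 h1c)
      · exact h
  have eB : 7308 * c ^ 3 + 9681 * c ^ 2 + 1234 * c - 1063 = 0 := by
    have := alg_three c (P 2) (P 3) (P 4) (P 5) (W 2) (W 3) (W 4) (W 5) Q2 Q3 Q4 Q5 H3 H4 H5
      R2 R3
    rcases mul_eq_zero.mp this with h | h
    · exact absurd h (pow_ne_zero 2 h1c)
    · exact h
  have d1 : p ∣ 4 * 243 * 3623 * 14557 := by
    rw [← ZMod.natCast_eq_zero_iff]
    push_cast
    linear_combination (-26834025960 * c ^ 2 - 6775887090 * c + 3711794221) * eA +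
      (1266795150 * c + 220644275) * eB
  have hbig : p = 3623 ∨ p = 14557 := by
    rcases (Nat.Prime.dvd_mul hpp).mp d1 with h | h
    · rcases (Nat.Prime.dvd_mul hpp).mp h with h | h
      · rcases (Nat.Prime.dvd_mul hpp).mp h with h | h
        · exact absurd (Nat.le_of_dvd (by norm_num) h) (by omega)
        · have h3 : p ∣ 3 := hpp.dvd_of_dvd_pow (by norm_num; exact h : p ∣ 3 ^ 5)
          exact absurd (Nat.le_of_dvd (by norm_num) h3) (by omega)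
      · left
        exact (Nat.prime_dvd_prime_iff_eq hpp (by norm_num)).mp h
    · right
      exact (Nat.prime_dvd_prime_iff_eq hpp (by norm_num)).mp h
  have hp17 : 17 ≤ p := by
    rcases hbig with h | h <;> omega
  have c4 := hall 4 (by omega)
  norm_num at c4
  have H6 : 11 * (P 5 - P 6) + 12 * (W 5 - W 6) = 0 := by linear_combination c4
  have eC : 14700 * c ^ 4 + 20076 * c ^ 3 + 357 * c ^ 2 - 5702 * c - 751 = 0 := by
    have := alg_four c (P 3) (P 4) (P 5) (P 6) (W 3) (W 4) (W 5) (W 6) Q3 Q4 Q5 Q6 H4 H5 H6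
      R3 R4
    rcases mul_eq_zero.mp this with h | h
    · exact absurd h n2
    · rcases mul_eq_zero.mp h with h | h
      · exact absurd h (pow_ne_zero 2 h1c)
      · exact h
  have d2 : p ∣ 8216320957596 := by
    rw [← ZMod.natCast_eq_zero_iff]
    push_cast
    linear_combination (2775496269000 * c ^ 3 - 128753884980 * c ^ 2 - 1019771702670 * c +
      211994908423) * eA + (-65139198150 * c + 10795322225) * eC
  rcases hbig with h | h
  · rw [h] at d2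
    exact absurd d2 (by norm_num)
  · rw [h] at d2
    exact absurd d2 (by norm_num)

end Pool.Agent.J6H98.MK
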