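import Pool.Agent.J6H98.MK.Stm

/-!
# Module CFX: fixed points of the Dickson polynomial of degree `p` modulo `p ^ 2`
-/

set_option autoImplicit false

open Polynomial

namespace Pool.Agent.J6H98.MK

namespace CFX

theorem sC_eq {R : Type} [CommRing R] (x : R) : ∀ n, sC x n = (dickson 1 (1 : R) n).eval x
  | 0 => by
    rw [dickson_zero, sC]
    norm_num
  | 1 => by
    rw [dickson_one, sC, eval_X]
  | n + 2 => by
    rw [sC, sC_eq x (n + 1), sC_eq x n, dickson_add_two]
    simp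

theorem sC_mul {R : Type} [CommRing R] (x : R) (m n : ℕ) : sC x (m * n) = sC (sC x n) m := by
  rw [sC_eq, sC_eq (sC x n), sC_eq x n, dickson_one_one_mul, eval_comp]

theorem sC_map {R S : Type} [CommRing R] [CommRing S] (f : R →+* S) (x : R) :
    ∀ n, f (sC x n) = sC (f x) n
  | 0 => by
    rw [sC, sC]
    exact map_ofNat f 2
  | 1 => by simp [sC]
  | n + 2 => by
    rw [sC, sC, map_sub, map_mul, sC_map f x (n + 1), sC_map f x n]

/-- `C_(n+1) = x U_n - 2 U_(n-1)` -/
theorem sC_sU {R : Type} [CommRing R] (x : R) : ∀ n, sC x (n + 1) = x * sU x (n + 1) - 2 * sU x n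
  | 0 => by simp [sC, sU]
  | 1 => by
    simp only [sC, sU]
    ring
  | n + 2 => by
    have h1 := sC_sU x n
    have h2 := sC_sU x (n + 1)
    have e1 : sC x (n + 2 + 1) = x * sC x (n + 1 + 1) - sC x (n + 1) := rfl
    have e2 : sU x (n + 2 + 1) = x * sU x (n + 1 + 1) - sU x (n + 1) := rfl
    have e3 : sU x (n + 2) = x * sU x (n + 1) - sU x n := rfl
    rw [e1, h2, h1, e2, e3]
    ring

/-- the first order variation -/
theorem sC_add {R : Type} [CommRing R] (x v : R) (hv : v * v = 0) :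
    ∀ n : ℕ, sC (x + v) n = sC x n + v * n * sU x n
  | 0 => by simp [sC]
  | 1 => by simp [sC, sU]
  | n + 2 => by
    have h1 := sC_add x v hv n
    have h2 := sC_add x v hv (n + 1)
    have h3 := sC_sU x n
    have e1 : sC (x + v) (n + 2) = (x + v) * sC (x + v) (n + 1) - sC (x + v) n := rfl
    have e2 : sC x (n + 2) = x * sC x (n + 1) - sC x n := rfl
    have e3 : sU x (n + 2) = x * sU x (n + 1) - sU x n := rfl
    rw [e1, h1, h2, e2, e3]
    push_cast
    linear_combination v * h3 + ((n : R) + 1) * sU x (n + 1) * hv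

theorem red_eq {p : ℕ} [Fact p.Prime] {x y : ZMod (p ^ 2)} (h : red p x = red p y) :
    ∃ u : ZMod (p ^ 2), y = x + (p : ZMod (p ^ 2)) * u := by
  have : NeZero (p ^ 2) := ⟨pow_ne_zero 2 (Fact.out : p.Prime).ne_zero⟩
  have h1 : red p (y - x) = 0 := by rw [map_sub, h, sub_self]
  have h2 : y - x = (((y - x).val : ℕ) : ZMod (p ^ 2)) := (ZMod.natCast_zmod_val _).symm
  rw [h2, map_natCast, ZMod.natCast_eq_zero_iff] at h1
  obtain ⟨k, hk⟩ := h1
  refine ⟨k, ?_⟩
  rw [hk] at h2
  push_cast at h2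
  rw [← h2]
  ring

theorem pp {p : ℕ} : ((p : ℕ) : ZMod (p ^ 2)) * (p : ZMod (p ^ 2)) = 0 := by
  rw [← sq, ← Nat.cast_pow, ZMod.natCast_self]

theorem first {p : ℕ} [Fact p.Prime] {x y : ZMod (p ^ 2)} (h : red p x = red p y) :
    sC x p = sC y p := by
  obtain ⟨u, rfl⟩ := red_eq h
  rw [sC_add x ((p : ZMod (p ^ 2)) * u) (by linear_combination u * u * (pp (p := p))) p]
  linear_combination -(u * sU x p) * (pp (p := p))

end CFX

theorem t_CFX : S_CFX := by
  intro p hp hp2
  refine ⟨fun x y h => CFX.first h, fun x h0 h1 => ?_⟩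
  have hpos : 1 ≤ p ^ 2 := Nat.one_le_pow _ _ (Fact.out : p.Prime).pos
  have h2 : sC x (p * p) = x := by
    have h3 := CFX.sC_sU x (p ^ 2 - 1)
    rw [Nat.sub_add_cancel hpos, h0, h1] at h3
    rw [← sq, h3]
    ring
  have h4 : red p (sC x p) = red p x := by
    rw [CFX.sC_map, CFX.sC_eq, dickson_one_one_zmod_p, eval_pow, eval_X, ZMod.pow_card]
  have h5 := CFX.first h4
  rw [← CFX.sC_mul, h2] at h5
  exact h5.symm

end Pool.Agent.J6H98.MK
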