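import Pool.Agent.J6H98.MK.Stm

/-!
# Module CHP: homogenised Dickson polynomials in characteristic `p`
-/

set_option autoImplicit false

open Polynomial

namespace Pool.Agent.J6H98.MK

theorem chp_E {R K : Type} [CommRing R] [CommRing K] (φ : R[X] →+* K) (A B : R) (α β : K)
    (h1 : α + β = φ (C A * X + C B)) (h2 : α * β = φ X) (n : ℕ) :
    φ (pE A B n) = α ^ n + β ^ n ∧ φ (pE A B (n + 1)) = α ^ (n + 1) + β ^ (n + 1) := by
  induction n with
  | zero =>
    refine ⟨?_, ?_⟩
    · rw [pE, map_ofNat, pow_zero, pow_zero]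
      norm_num
    · rw [pE, zero_add, pow_one, pow_one, h1]
  | succ n ih =>
    refine ⟨ih.2, ?_⟩
    rw [pE, map_sub, map_mul, map_mul, ih.1, ih.2, ← h1, ← h2]
    ring

theorem chp_G {R K : Type} [CommRing R] [CommRing K] (φ : R[X] →+* K) (A B : R) (α β : K)
    (h1 : α + β = φ (C A * X + C B)) (h2 : α * β = φ X) (n : ℕ) :
    (α - β) * φ (pG A B n) = α ^ n - β ^ n ∧
      (α - β) * φ (pG A B (n + 1)) = α ^ (n + 1) - β ^ (n + 1) := by
  induction n with
  | zero =>
    refine ⟨?_, ?_⟩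
    · rw [pG, map_zero, pow_zero, pow_zero, mul_zero, sub_self]
    · rw [pG, zero_add, pow_one, pow_one, map_one, mul_one]
  | succ n ih =>
    refine ⟨ih.2, ?_⟩
    rw [pG, map_sub, map_mul, map_mul, ← h1, ← h2]
    calc (α - β) * ((α + β) * φ (pG A B (n + 1)) - α * β * φ (pG A B n))
        = (α + β) * ((α - β) * φ (pG A B (n + 1))) - α * β * ((α - β) * φ (pG A B n)) := by ring
      _ = _ := by rw [ih.1, ih.2]; ring

theorem chp_pow {K : Type} [CommRing K] (δ : K) {n k : ℕ} (h : n = 2 * k + 1) :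
    δ ^ n = δ * (δ * δ) ^ k := by
  rw [h, pow_succ, pow_mul, sq, mul_comm]

theorem t_CHP : S_CHP := by
  intro p hp hp2 A B hA
  obtain ⟨f, hf⟩ : ∃ f : (ZMod p)[X][X],
      f = C 1 * X ^ 2 + C (-(C A * X + C B)) * X + C (X : (ZMod p)[X]) := ⟨_, rfl⟩
  have hdeg : f.degree = 2 := by
    rw [hf]
    exact degree_quadratic one_ne_zero
  have hinj : Function.Injective (AdjoinRoot.of f) :=
    AdjoinRoot.of.injective_of_degree_ne_zero (by rw [hdeg]; decide)
  haveI : CharP (AdjoinRoot f) p := charP_of_injective_ringHom hinj p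
  obtain ⟨α, hα⟩ : ∃ α : AdjoinRoot f, α ^ 2 - AdjoinRoot.of f (C A * X + C B) * α +
      AdjoinRoot.of f X = 0 := by
    refine ⟨AdjoinRoot.root f, ?_⟩
    have h := AdjoinRoot.eval₂_root f
    have h' : (C 1 * X ^ 2 + C (-(C A * X + C B)) * X + C (X : (ZMod p)[X])).eval₂
        (AdjoinRoot.of f) (AdjoinRoot.root f) = 0 := by rw [← hf]; exact h
    simp only [eval₂_add, eval₂_mul, eval₂_C, eval₂_pow, eval₂_X, map_one, one_mul, map_neg,
      eval₂_neg] at h'
    rw [← h']
    ring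
  have h1 : α + (AdjoinRoot.of f (C A * X + C B) - α) = AdjoinRoot.of f (C A * X + C B) := by ring
  have h2 : α * (AdjoinRoot.of f (C A * X + C B) - α) = AdjoinRoot.of f X := by
    have : AdjoinRoot.of f X = AdjoinRoot.of f (C A * X + C B) * α - α ^ 2 := by
      have := eq_neg_of_add_eq_zero_right hα
      rw [this]
      ring
    rw [this]
    ring
  obtain ⟨β, hβ⟩ : ∃ β, β = AdjoinRoot.of f (C A * X + C B) - α := ⟨_, rfl⟩
  rw [← hβ] at h1 h2
  have hE := (chp_E (AdjoinRoot.of f) A B α β h1 h2 p).1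
  have hG := (chp_G (AdjoinRoot.of f) A B α β h1 h2 p).1
  refine ⟨?_, ?_⟩
  · apply hinj
    rw [hE, ← add_pow_char, h1, ← map_pow, add_pow_char, mul_pow, ← C_pow, ← C_pow]
  · have hd2 : (α - β) * (α - β) = AdjoinRoot.of f ((C A * X + C B) ^ 2 - 4 * X) := by
      rw [map_sub, map_mul, map_pow, ← h1, ← h2, map_ofNat]
      ring
    have hodd : p = 2 * ((p - 1) / 2) + 1 := by
      have := hp.out.eq_two_or_odd
      omega
    have h3 : (α - β) ^ p = (α - β) *
        AdjoinRoot.of f (((C A * X + C B) ^ 2 - 4 * X) ^ ((p - 1) / 2)) := by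
      rw [map_pow, ← hd2]
      exact chp_pow _ hodd
    rw [← sub_pow_char, h3] at hG
    have h4 : AdjoinRoot.of f (((C A * X + C B) ^ 2 - 4 * X) * pG A B p) =
        AdjoinRoot.of f (((C A * X + C B) ^ 2 - 4 * X) *
          ((C A * X + C B) ^ 2 - 4 * X) ^ ((p - 1) / 2)) := by
      rw [map_mul, map_mul, ← hd2, mul_assoc, mul_assoc, hG]
    have h5 := hinj h4
    have hne : ((C A * X + C B) ^ 2 - 4 * X : (ZMod p)[X]) ≠ 0 := by
      have e : ((C A * X + C B) ^ 2 - 4 * X : (ZMod p)[X]) =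
          C (A ^ 2) * X ^ 2 + C (2 * A * B - 4) * X + C (B ^ 2) := by
        simp only [map_pow, map_sub, map_mul, map_ofNat]
        ring
      intro h0
      have h6 : (C (A ^ 2) * X ^ 2 + C (2 * A * B - 4) * X + C (B ^ 2) : (ZMod p)[X]).degree = 2 :=
        degree_quadratic (pow_ne_zero 2 hA)
      rw [← e, h0, degree_zero] at h6
      exact absurd h6 (by decide)
    exact mul_left_cancel₀ hne h5

end Pool.Agent.J6H98.MK
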