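import Pool.Agent.J6H98.MK.Stm2

set_option autoImplicit false

/-!
# Combinatorics of a grid
-/

namespace Pool.Agent.J6H98.MK

theorem t_FCO : S_FCO := by
  intro α β _ _ a₀ b₀ S hc hr
  obtain ⟨a1, ha1⟩ := exists_ne a₀
  obtain ⟨b1, hb1⟩ := exists_ne b₀
  have key : ∀ q : α × β, q ≠ (a₀, b₀) → (q ∈ S ↔ (a1, b1) ∈ S) := by
    rintro ⟨a, b⟩ hq
    by_cases ha : a = a₀
    · subst ha
      have hb : b ≠ b₀ := by
        rintro rfl
        exact hq rfl
      constructor
      · intro h
        exact hc a1 ha1 b b1 (hr b hb a a1 h)
      · intro h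
        exact hr b hb a1 a (hc a1 ha1 b1 b h)
    · constructor
      · intro h
        exact hr b1 hb1 a a1 (hc a ha b b1 h)
      · intro h
        exact hc a ha b1 b (hr b1 hb1 a1 a h)
  by_cases h1 : (a1, b1) ∈ S
  · by_cases h0 : (a₀, b₀) ∈ S
    · left
      intro q
      by_cases hq : q = (a₀, b₀)
      · rw [hq]
        exact h0
      · exact (key q hq).mpr h1
    · right; right; right
      intro q
      constructor
      · rintro hq rfl
        exact h0 hq
      · intro hq
        exact (key q hq).mpr h1
  · by_cases h0 : (a₀, b₀) ∈ S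
    · right; right; left
      intro q
      constructor
      · intro hq
        by_contra hne
        exact h1 ((key q hne).mp hq)
      · rintro rfl
        exact h0
    · right; left
      intro q hq
      by_cases hne : q = (a₀, b₀)
      · rw [hne] at hq
        exact h0 hq
      · exact h1 ((key q hne).mp hq)

end Pool.Agent.J6H98.MK
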