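import Pool.Agent.J6H98.MK.Stm3

/-!
# Project MK, module GPT (helper8): a good point of the conic
-/

set_option autoImplicit false

namespace Pool.Agent.J6H98.MK

open Polynomial in
theorem t_GPT : S_GPT := by
  classical
  intro p hpf hp g y₀ y₁ hg hne
  have hp1 : 12 ≤ p - 1 := by omega
  have hgp : g ^ (p - 1) = 1 := by rw [← hg]; exact pow_orderOf_eq_one g
  have hg0 : g ≠ 0 := by
    rintro rfl
    rw [zero_pow (by omega)] at hgp
    exact zero_ne_one hgp
  set h := g⁻¹ with hh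
  have hgh : g * h = 1 := mul_inv_cancel₀ hg0
  have hd : g - h ≠ 0 := by
    intro h0
    have h1 : g = h := sub_eq_zero.mp h0
    have h2 : g ^ 2 = 1 := by
      rw [pow_two]
      nth_rewrite 2 [h1]
      exact hgh
    have h3 := orderOf_dvd_of_pow_eq_one h2
    rw [hg] at h3
    have := Nat.le_of_dvd (by norm_num) h3
    omega
  obtain ⟨a, ha⟩ : ∃ a, a = (y₁ - h * y₀) / (g - h) := ⟨_, rfl⟩
  obtain ⟨b, hb⟩ : ∃ b, b = (g * y₀ - y₁) / (g - h) := ⟨_, rfl⟩
  have ha' : a * (g - h) = y₁ - h * y₀ := by rw [ha, div_mul_cancel₀ _ hd]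
  have hb' : b * (g - h) = g * y₀ - y₁ := by rw [hb, div_mul_cancel₀ _ hd]
  have hab0 : a + b = y₀ := by
    apply mul_right_cancel₀ hd
    linear_combination ha' + hb'
  have hab1 : a * g + b * h = y₁ := by
    apply mul_right_cancel₀ hd
    linear_combination g * ha' + h * hb'
  have hseq : ∀ n, sS (g + h) y₀ y₁ n = a * g ^ n + b * h ^ n ∧
      sS (g + h) y₀ y₁ (n + 1) = a * g ^ (n + 1) + b * h ^ (n + 1) := by
    intro n
    induction n with
    | zero =>
      refine ⟨?_, ?_⟩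
      · rw [sS]; simp [hab0]
      · rw [sS]; simp [hab1]
    | succ n ih =>
      refine ⟨ih.2, ?_⟩
      rw [sS, ih.1, ih.2]
      linear_combination (a * g ^ n + b * h ^ n) * hgh
  have habne : a * b ≠ 0 := by
    intro h0
    apply hne
    have h1 : (a * (g - h)) * (b * (g - h)) = (y₁ - h * y₀) * (g * y₀ - y₁) := by rw [ha', hb']
    linear_combination h1 - (g - h) ^ 2 * h0 + (-y₀ ^ 2) * hgh
  have ha0 : a ≠ 0 := left_ne_zero_of_mul habne
  have hb0 : b ≠ 0 := right_ne_zero_of_mul habne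
  by_contra hcon
  push Not at hcon
  have hroot : ∀ i : ℕ, (a * (g ^ i) ^ 2 - 2 * g ^ i + b) * (a * (g ^ i) ^ 2 + 2 * g ^ i + b) *
      (a * (g ^ i) ^ 2 - b) = 0 := by
    intro i
    have ht : g ^ i * h ^ i = 1 := by rw [← mul_pow, hgh, one_pow]
    by_cases h4 : (sS (g + h) y₀ y₁ i) ^ 2 = 4
    · rw [(hseq i).1] at h4
      have h5 : (a * (g ^ i) ^ 2 - 2 * g ^ i + b) * (a * (g ^ i) ^ 2 + 2 * g ^ i + b) = 0 := by
        linear_combination (g ^ i) ^ 2 * h4 - (2 * a * b * (g ^ i) ^ 2 +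
          b ^ 2 * (g ^ i * h ^ i + 1)) * ht
      rw [h5, zero_mul]
    · have h5 := hcon i h4
      rw [(hseq i).1, (hseq i).2] at h5
      have h6 : (g - h) * (a * g ^ i - b * h ^ i) = 0 := by
        linear_combination h5
      have h7 : a * g ^ i - b * h ^ i = 0 := (mul_eq_zero.mp h6).resolve_left hd
      have h8 : a * (g ^ i) ^ 2 - b = 0 := by
        linear_combination g ^ i * h7 + b * ht
      rw [h8, mul_zero]
  let Q : (ZMod p)[X] := (C a * X ^ 2 - 2 * X + C b) * (C a * X ^ 2 + 2 * X + C b) *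
      (C a * X ^ 2 - C b)
  have hdeg : Q.natDegree ≤ 6 := by
    change ((C a * X ^ 2 - 2 * X + C b) * (C a * X ^ 2 + 2 * X + C b) *
      (C a * X ^ 2 - C b)).natDegree ≤ 6
    compute_degree
  have hQ : Q = 0 := by
    refine eq_zero_of_natDegree_lt_card_of_eval_eq_zero' Q
      ((Finset.range (p - 1)).image (g ^ ·)) ?_ ?_
    · intro t ht
      rw [Finset.mem_image] at ht
      obtain ⟨i, -, rfl⟩ := ht
      have := hroot i
      simp only [Q, eval_mul, eval_sub, eval_add, eval_pow, eval_C, eval_X, eval_ofNat]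
      exact this
    · rw [Finset.card_image_of_injOn, Finset.card_range]
      · omega
      · intro i hi j hj hij
        rw [Finset.mem_coe, Finset.mem_range, ← hg] at hi hj
        exact pow_injOn_Iio_orderOf hi hj hij
  have hc : Q.coeff 6 = a ^ 3 := by
    have e1 : Q = C (a ^ 3) * X ^ 6 + C (a * b * a + 0 - a * 4 + 0) * X ^ 4 +
        C (a * b ^ 2 - 2 * a * b * b + 4 * b) * X ^ 2 + C (-(b ^ 3)) := by
      simp only [Q, C_mul, C_add, C_sub, C_pow, C_neg, C_0, map_ofNat]
      ring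
    rw [e1]
    simp only [coeff_add, coeff_C_mul, coeff_X_pow, coeff_C]
    norm_num
  rw [hQ, coeff_zero] at hc
  exact pow_ne_zero 3 ha0 hc.symm

end Pool.Agent.J6H98.MK
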