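import Pool.Agent.J6H98.MK.Stm2

/-!
# Module HEN: Hensel lifting and the number of points of a fibre
-/

set_option autoImplicit false

namespace Pool.Agent.J6H98.MK.HEN

variable {p : ℕ} [hp : Fact p.Prime]

theorem p_sq : (p : ZMod (p ^ 2)) ^ 2 = 0 := by
  have h := ZMod.natCast_self (p ^ 2)
  rwa [Nat.cast_pow] at h

theorem red_surj (p : ℕ) [Fact p.Prime] : Function.Surjective (red p) :=
  ZMod.castHom_surjective _

theorem neZero_sq (p : ℕ) [hp : Fact p.Prime] : NeZero (p ^ 2) :=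
  ⟨pow_ne_zero 2 hp.out.ne_zero⟩

theorem red_natCast (n : ℕ) : red p (n : ZMod (p ^ 2)) = (n : ZMod p) := map_natCast _ n

theorem red_eq_zero {x : ZMod (p ^ 2)} (h : red p x = 0) : ∃ u, x = (p : ZMod (p ^ 2)) * u := by
  have := neZero_sq p
  have hx : ((x.val : ℕ) : ZMod (p ^ 2)) = x := ZMod.natCast_zmod_val x
  rw [← hx, red_natCast, ZMod.natCast_eq_zero_iff] at h
  obtain ⟨k, hk⟩ := h
  refine ⟨(k : ZMod (p ^ 2)), ?_⟩
  rw [← hx, hk, Nat.cast_mul]

theorem isUnit_of_red {x : ZMod (p ^ 2)} (h : red p x ≠ 0) : IsUnit x := by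
  obtain ⟨y, hy⟩ := red_surj p (red p x)⁻¹
  have h1 : red p (x * y - 1) = 0 := by
    rw [map_sub, map_mul, hy, mul_inv_cancel₀ h, map_one, sub_self]
  obtain ⟨u, hu⟩ := red_eq_zero h1
  refine IsUnit.of_mul_eq_one (y * (1 - p * u)) ?_
  have h2 : x * y = 1 + p * u := by rw [← hu]; ring
  calc x * (y * (1 - p * u)) = (x * y) * (1 - p * u) := by ring
    _ = 1 - (p : ZMod (p ^ 2)) ^ 2 * u ^ 2 := by rw [h2]; ring
    _ = 1 := by rw [p_sq]; ring

theorem exists_unique (D : ZMod (p ^ 2)) (P : ZMod p × ZMod p × ZMod p)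
    (h1 : 2 * P.2.2 - P.1 * P.2.1 ≠ 0)
    (h2 : P.1 ^ 2 + P.2.1 ^ 2 + P.2.2 ^ 2 = P.1 * P.2.1 * P.2.2 + red p D)
    (a b : ZMod (p ^ 2)) (ha : red p a = P.1) (hb : red p b = P.2.1) :
    ∃! c : ZMod (p ^ 2), red p c = P.2.2 ∧ (a, b, c) ∈ Xs D := by
  obtain ⟨c₀, hc₀⟩ := red_surj p P.2.2
  have hF : red p (a ^ 2 + b ^ 2 + c₀ ^ 2 - a * b * c₀ - D) = 0 := by
    simp only [map_sub, map_add, map_mul, map_pow, ha, hb, hc₀]
    rw [h2]
    ring
  obtain ⟨f, hf⟩ := red_eq_zero hF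
  have hs : IsUnit (2 * c₀ - a * b) := by
    apply isUnit_of_red
    simp only [map_sub, map_mul, map_ofNat, ha, hb, hc₀]
    exact h1
  obtain ⟨t, ht⟩ := hs.exists_right_inv
  have hp2 : (p : ZMod (p ^ 2)) ^ 2 = 0 := p_sq
  have hpz : red p (p : ZMod (p ^ 2)) = 0 := by
    rw [red_natCast, ZMod.natCast_self]
  refine ⟨c₀ - p * f * t, ⟨?_, ?_, ?_⟩, ?_⟩
  · rw [map_sub, map_mul, map_mul, hpz, hc₀]
    ring
  · show a ^ 2 + b ^ 2 + (c₀ - p * f * t) ^ 2 = a * b * (c₀ - p * f * t) + D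
    linear_combination hf - (p : ZMod (p ^ 2)) * f * ht + f ^ 2 * t ^ 2 * hp2
  · refine Or.inr (Or.inr (isUnit_of_red ?_))
    show red p (2 * (c₀ - p * f * t) - a * b) ≠ 0
    simp only [map_sub, map_mul, map_ofNat, ha, hb, hc₀, hpz]
    rwa [zero_mul, zero_mul, sub_zero]
  · rintro c ⟨hc, hce, -⟩
    have hce' : a ^ 2 + b ^ 2 + c ^ 2 = a * b * c + D := hce
    have hu : IsUnit (c + (c₀ - p * f * t) - a * b) := by
      apply isUnit_of_red
      simp only [map_sub, map_add, map_mul, ha, hb, hc₀, hc, hpz]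
      rw [zero_mul, zero_mul, sub_zero, ← two_mul]
      exact h1
    obtain ⟨v, hv⟩ := hu.exists_right_inv
    have h3 : (c - (c₀ - p * f * t)) * (c + (c₀ - p * f * t) - a * b) = 0 := by
      linear_combination hce' - hf + (p : ZMod (p ^ 2)) * f * ht - f ^ 2 * t ^ 2 * hp2
    have h4 : c - (c₀ - p * f * t) = 0 := by
      linear_combination v * h3 - (c - (c₀ - p * f * t)) * hv
    exact sub_eq_zero.1 h4

theorem fibre_card (x : ZMod p) : {a : ZMod (p ^ 2) | red p a = x}.ncard = p := by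
  classical
  have := neZero_sq p
  have : NeZero p := ⟨hp.out.ne_zero⟩
  have h1 : ∀ y : ZMod p, (Finset.univ.filter fun a : ZMod (p ^ 2) => red p a = y).card =
      (Finset.univ.filter fun a : ZMod (p ^ 2) => red p a = x).card := by
    intro y
    exact AddMonoidHom.card_fiber_eq_of_mem_range (red p).toAddMonoidHom
      (red_surj p y) (red_surj p x)
  have h2 := Finset.card_eq_sum_card_fiberwise (f := fun a : ZMod (p ^ 2) => red p a)
    (s := Finset.univ) (t := (Finset.univ : Finset (ZMod p))) (fun _ _ => Finset.mem_coe.2 (Finset.mem_univ _))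
  rw [Finset.sum_congr rfl (fun y _ => h1 y), Finset.sum_const, Finset.card_univ, Finset.card_univ,
    ZMod.card, ZMod.card, smul_eq_mul] at h2
  have h3 : (Finset.univ.filter fun a : ZMod (p ^ 2) => red p a = x).card = p := by
    have : p * (Finset.univ.filter fun a : ZMod (p ^ 2) => red p a = x).card = p * p := by
      rw [← h2, pow_two]
    exact Nat.eq_of_mul_eq_mul_left hp.out.pos this
  refine Eq.trans ?_ h3
  rw [← Set.ncard_coe_finset]
  congr 1
  ext a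
  simp

end Pool.Agent.J6H98.MK.HEN

namespace Pool.Agent.J6H98.MK

theorem t_HEN : S_HEN := by
  intro p _ _ D P h1 h2
  have key := HEN.exists_unique D P h1 h2
  refine ⟨key, ?_⟩
  have hinj : Set.InjOn (fun w : ZMod (p ^ 2) × ZMod (p ^ 2) × ZMod (p ^ 2) => (w.1, w.2.1))
      {w | w ∈ Xs D ∧ red3 p w = P} := by
    rintro ⟨a, b, c⟩ ⟨hw, hr⟩ ⟨a', b', c'⟩ ⟨hw', hr'⟩ h
    simp only [Prod.mk.injEq] at h
    obtain ⟨rfl, rfl⟩ := h
    subst hr
    have hr2 : red p c' = red p c := by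
      have := congrArg (fun q => q.2.2) hr'
      exact this
    obtain ⟨d, -, hd⟩ := key a b rfl rfl
    rw [hd c ⟨rfl, hw⟩, hd c' ⟨hr2, hw'⟩]
  rw [← Set.InjOn.ncard_image hinj]
  have himg : (fun w : ZMod (p ^ 2) × ZMod (p ^ 2) × ZMod (p ^ 2) => (w.1, w.2.1)) ''
      {w | w ∈ Xs D ∧ red3 p w = P} =
      {a : ZMod (p ^ 2) | red p a = P.1} ×ˢ {b : ZMod (p ^ 2) | red p b = P.2.1} := by
    ext ⟨a, b⟩
    constructor
    · rintro ⟨⟨a', b', c'⟩, ⟨hw, hr⟩, h⟩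
      simp only [Prod.mk.injEq] at h
      obtain ⟨rfl, rfl⟩ := h
      subst hr
      exact ⟨rfl, rfl⟩
    · rintro ⟨ha, hb⟩
      obtain ⟨c, ⟨hc1, hc2⟩, -⟩ := key a b ha hb
      refine ⟨(a, b, c), ⟨hc2, ?_⟩, rfl⟩
      exact Prod.ext ha (Prod.ext hb hc1)
  rw [himg, Set.ncard_prod, HEN.fibre_card, HEN.fibre_card, pow_two]

end Pool.Agent.J6H98.MK
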