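import Pool.Agent.J6H98.MK.Stm

/-!
# MK-LFT: Teichmueller lift and solution of the recursion
-/

set_option autoImplicit false

open Polynomial

namespace Pool.Agent.J6H98.MK

theorem LFT_red_natCast (p k : ℕ) : red p (k : ZMod (p ^ 2)) = (k : ZMod p) := map_natCast _ _

theorem LFT_isUnit {p : ℕ} [Fact p.Prime] {y : ZMod (p ^ 2)} (hy : red p y ≠ 0) : IsUnit y := by
  have hp : p.Prime := Fact.out
  have : NeZero (p ^ 2) := ⟨pow_ne_zero 2 hp.ne_zero⟩
  have e : ((y.val : ℕ) : ZMod (p ^ 2)) = y := ZMod.natCast_zmod_val y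
  rw [← e] at hy ⊢
  rw [LFT_red_natCast] at hy
  rw [ZMod.isUnit_iff_coprime]
  refine Nat.Coprime.pow_right 2 ?_
  rw [Nat.coprime_comm, hp.coprime_iff_not_dvd]
  exact fun h => hy ((ZMod.natCast_eq_zero_iff _ _).2 h)

theorem LFT_sC {R : Type} [CommRing R] {ζ η : R} (h : ζ * η = 1) (n : ℕ) :
    sC (ζ + η) n = ζ ^ n + η ^ n ∧ sC (ζ + η) (n + 1) = ζ ^ (n + 1) + η ^ (n + 1) := by
  induction n with
  | zero =>
    constructor
    · simp only [sC, pow_zero]
      norm_num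
    · simp [sC]
  | succ n ih =>
    refine ⟨ih.2, ?_⟩
    show (ζ + η) * sC (ζ + η) (n + 1) - sC (ζ + η) n = _
    rw [ih.1, ih.2]
    linear_combination (ζ ^ n + η ^ n) * h

theorem LFT_sS {R : Type} [CommRing R] {ζ η a b A B : R} (h : ζ * η = 1) (h1 : A + B = a)
    (h2 : A * ζ + B * η = b) (n : ℕ) :
    sS (ζ + η) a b n = A * ζ ^ n + B * η ^ n ∧
      sS (ζ + η) a b (n + 1) = A * ζ ^ (n + 1) + B * η ^ (n + 1) := by
  induction n with
  | zero =>
    constructor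
    · simp [sS, h1]
    · simp [sS, h2]
  | succ n ih =>
    refine ⟨ih.2, ?_⟩
    show (ζ + η) * sS (ζ + η) a b (n + 1) - sS (ζ + η) a b n = _
    rw [ih.1, ih.2]
    linear_combination (A * ζ ^ n + B * η ^ n) * h

theorem t_LFT : S_LFT := by
  intro hCFX p _ hp5 x a b g hg hx hxC
  have hp : p.Prime := Fact.out
  have : NeZero (p ^ 2) := ⟨pow_ne_zero 2 hp.ne_zero⟩
  have hgp : g ^ (p - 1) = 1 := hg ▸ pow_orderOf_eq_one g
  have hg0 : g ≠ 0 := by
    rintro rfl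
    rw [zero_pow (by omega)] at hgp
    exact zero_ne_one hgp
  obtain ⟨g', hg'⟩ : ∃ g', red p g' = g := ZMod.ringHom_surjective (red p) g
  have hunit : IsUnit g' := LFT_isUnit (by rw [hg']; exact hg0)
  obtain ⟨u, hu⟩ := hunit
  obtain ⟨ζ, hζdef⟩ : ∃ ζ, ζ = g' ^ p := ⟨_, rfl⟩
  have hζ1 : ζ ^ (p - 1) = 1 := by
    have h1 := ZMod.pow_totient u
    rw [Nat.totient_prime_pow hp (by norm_num)] at h1
    have h2 : (g' ^ (p ^ (2 - 1) * (p - 1)) : ZMod (p ^ 2)) = 1 := by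
      rw [← hu, ← Units.val_pow_eq_pow_val, h1, Units.val_one]
    rw [hζdef, ← pow_mul]
    simpa using h2
  have hζr : red p ζ = g := by
    rw [hζdef, map_pow, hg', ZMod.pow_card]
  obtain ⟨η, hηdef⟩ : ∃ η, η = ζ ^ (p - 2) := ⟨_, rfl⟩
  have hζη : ζ * η = 1 := by
    rw [hηdef, ← pow_succ', ← hζ1]
    congr 1
    omega
  have hηr : red p η = g⁻¹ := by
    have h1 : g * red p η = 1 := by
      rw [← hζr, ← map_mul, hζη, map_one]
    rw [eq_comm, inv_eq_of_mul_eq_one_right h1]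
  have hζp : ζ ^ p = ζ := by
    calc ζ ^ p = ζ ^ ((p - 1) + 1) := congrArg (fun k : ℕ => ζ ^ k) (by omega)
      _ = ζ := by rw [pow_succ ζ (p - 1), hζ1, one_mul]
  have hηp : η ^ p = η := by
    rw [hηdef, ← pow_mul, mul_comm, pow_mul, hζp]
  have hxe : x = ζ + η := by
    have h1 := (hCFX p (by omega)).1 x (ζ + η) (by rw [hx, map_add, hζr, hηr])
    rw [hxC, (LFT_sC hζη p).1, hζp, hηp] at h1
    exact h1
  have hne : red p (ζ - η) ≠ 0 := by
    rw [map_sub, hζr, hηr, sub_ne_zero]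
    intro h1
    have h2 : g ^ 2 = 1 := by
      rw [sq]
      nth_rewrite 2 [h1]
      exact mul_inv_cancel₀ hg0
    have h3 := orderOf_dvd_of_pow_eq_one h2
    rw [hg] at h3
    have := Nat.le_of_dvd (by norm_num) h3
    omega
  obtain ⟨v, hv⟩ := (LFT_isUnit hne).exists_right_inv
  have hA1 : (b - a * η) * v + (a * ζ - b) * v = a := by linear_combination a * hv
  have hA2 : (b - a * η) * v * ζ + (a * ζ - b) * v * η = b := by linear_combination b * hv
  refine ⟨ζ, (b - a * η) * v, (a * ζ - b) * v, hζ1, hζr, ?_, fun n => ?_⟩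
  · rw [hxe]
    have h1 : 4 - (ζ + η) ^ 2 = -((ζ - η) ^ 2) := by linear_combination (-4) * hζη
    rw [h1]
    have h2 : (b - a * η) * v * ((a * ζ - b) * v) * -((ζ - η) ^ 2) =
        -((b - a * η) * (a * ζ - b)) * ((ζ - η) * v) ^ 2 := by ring
    rw [h2, hv]
    linear_combination (a ^ 2) * hζη
  · rw [hxe, (LFT_sS hζη hA1 hA2 n).1, hηdef, ← pow_mul]

end Pool.Agent.J6H98.MK
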