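import Pool.Agent.J6H98.MK.Stm

/-!
# MK-ORT (helper95)
-/

set_option autoImplicit false

open Polynomial

namespace Pool.Agent.J6H98.MK

namespace ORT

theorem isUnit_of_red (p : ℕ) [Fact p.Prime] {z : ZMod (p ^ 2)} (h : red p z ≠ 0) : IsUnit z := by
  have hp : p.Prime := Fact.out
  have : NeZero (p ^ 2) := ⟨pow_ne_zero _ hp.ne_zero⟩
  have h1 : ((z.val : ℕ) : ZMod (p ^ 2)) = z := ZMod.natCast_zmod_val z
  have h2 : red p z = ((z.val : ℕ) : ZMod p) := by
    conv_lhs => rw [← h1]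
    exact map_natCast (red p) z.val
  rw [← h1, ZMod.isUnit_iff_coprime]
  apply Nat.Coprime.pow_right
  rw [Nat.coprime_comm, Nat.Prime.coprime_iff_not_dvd hp]
  intro hd
  apply h
  rw [h2]
  exact (ZMod.natCast_eq_zero_iff _ _).2 hd

theorem geo (p : ℕ) [Fact p.Prime] (m : ℕ) (hm : p - 1 = 2 * m) (ζ : ZMod (p ^ 2))
    (h1 : ζ ^ (p - 1) = 1) (h2 : orderOf (red p ζ) = p - 1) (l : ℕ) :
    (m ∣ l → ∑ i ∈ Finset.range m, (ζ ^ (2 * i)) ^ l = m) ∧
    (¬ m ∣ l → ∑ i ∈ Finset.range m, (ζ ^ (2 * i)) ^ l = 0) := by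
  have e : ∀ i, (ζ ^ (2 * i)) ^ l = (ζ ^ (2 * l)) ^ i := by
    intro i
    rw [← pow_mul, ← pow_mul]
    congr 1
    ring
  simp only [e]
  constructor
  · rintro ⟨c, rfl⟩
    have : ζ ^ (2 * (m * c)) = 1 := by
      rw [show 2 * (m * c) = (p - 1) * c by rw [hm]; ring, pow_mul, h1, one_pow]
    simp [this]
  · intro hl
    have hu : IsUnit (ζ ^ (2 * l) - 1) := by
      apply isUnit_of_red
      rw [map_sub, map_pow, map_one, sub_ne_zero]
      intro h3
      have h4 := orderOf_dvd_of_pow_eq_one h3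
      rw [h2, hm] at h4
      exact hl (Nat.dvd_of_mul_dvd_mul_left (by norm_num) h4)
    have h3 := geom_sum_mul (ζ ^ (2 * l)) m
    have h4 : (ζ ^ (2 * l)) ^ m = 1 := by
      rw [← pow_mul, show 2 * l * m = (p - 1) * l by rw [hm]; ring, pow_mul, h1, one_pow]
    rw [h4, sub_self] at h3
    exact (hu.mul_left_eq_zero).1 h3

end ORT

open ORT in
theorem t_ORT : S_ORT := by
  intro p _ hp5 ζ a b f h1 h2 hdeg hev j hj2 hjm
  have hp : p.Prime := Fact.out
  have hodd : p % 2 = 1 := by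
    rcases hp.eq_two_or_odd with h | h
    · omega
    · exact h
  obtain ⟨m, hm⟩ : ∃ m, m = (p - 1) / 2 := ⟨_, rfl⟩
  have hm2 : p - 1 = 2 * m := by omega
  rw [← hm] at hjm ⊢
  have hg := geo p m hm2 ζ h1 h2
  have hmu : IsUnit ((m : ℕ) : ZMod (p ^ 2)) := by
    apply isUnit_of_red
    rw [map_natCast]
    intro h0
    have h3 := (ZMod.natCast_eq_zero_iff _ _).1 h0
    have h4 := Nat.le_of_dvd (by omega) h3
    omega
  have key : ∑ i ∈ Finset.range m, (ζ ^ (2 * i)) ^ (m - j) *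
      (f.eval (ζ ^ (2 * i)) - (a * ζ ^ (2 * i) + b)) = 0 := by
    apply Finset.sum_eq_zero
    intro i _
    rw [hev, sub_self, mul_zero]
  have hexp : ∑ i ∈ Finset.range m, (ζ ^ (2 * i)) ^ (m - j) *
      (f.eval (ζ ^ (2 * i)) - (a * ζ ^ (2 * i) + b)) =
      ∑ k ∈ Finset.range (p + 1), f.coeff k * ∑ i ∈ Finset.range m, (ζ ^ (2 * i)) ^ (m - j + k) -
        (a * ∑ i ∈ Finset.range m, (ζ ^ (2 * i)) ^ (m - j + 1) +
          b * ∑ i ∈ Finset.range m, (ζ ^ (2 * i)) ^ (m - j)) := by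
    have e1 : ∀ i, (ζ ^ (2 * i)) ^ (m - j) * (f.eval (ζ ^ (2 * i)) - (a * ζ ^ (2 * i) + b)) =
        ∑ k ∈ Finset.range (p + 1), f.coeff k * (ζ ^ (2 * i)) ^ (m - j + k) -
          (a * (ζ ^ (2 * i)) ^ (m - j + 1) + b * (ζ ^ (2 * i)) ^ (m - j)) := by
      intro i
      rw [eval_eq_sum_range' (Nat.lt_succ_of_le hdeg), mul_sub, Finset.mul_sum]
      congr 1
      · apply Finset.sum_congr rfl
        intro k _
        rw [pow_add]
        ring
      · ring
    simp only [e1]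
    rw [Finset.sum_sub_distrib, Finset.sum_add_distrib, Finset.sum_comm, Finset.mul_sum,
      Finset.mul_sum]
    congr 1
    apply Finset.sum_congr rfl
    intro k _
    rw [Finset.mul_sum]
  rw [hexp] at key
  have z1 : ¬ m ∣ m - j + 1 := by
    intro h
    have := Nat.le_of_dvd (by omega) h
    omega
  have z2 : ¬ m ∣ m - j := by
    intro h
    have := Nat.le_of_dvd (by omega) h
    omega
  rw [(hg _).2 z1, (hg _).2 z2, mul_zero, mul_zero, add_zero, sub_zero] at key
  have hsub : ({j, j + m} : Finset ℕ) ⊆ Finset.range (p + 1) := by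
    intro k hk
    rw [Finset.mem_insert, Finset.mem_singleton] at hk
    rw [Finset.mem_range]
    omega
  rw [← Finset.sum_subset hsub] at key
  · rw [Finset.sum_pair (by omega)] at key
    rw [show m - j + j = m by omega, show m - j + (j + m) = 2 * m by omega,
      (hg m).1 dvd_rfl, (hg (2 * m)).1 (dvd_mul_left _ _), ← add_mul] at key
    exact (hmu.mul_left_eq_zero).1 key
  · intro k hk hk'
    rw [Finset.mem_insert, Finset.mem_singleton, not_or] at hk'
    rw [Finset.mem_range] at hk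
    rw [(hg _).2, mul_zero]
    rintro ⟨c, hc⟩
    have c3 : c < 3 := by
      by_contra h
      have : m * 3 ≤ m * c := Nat.mul_le_mul_left m (by omega)
      omega
    interval_cases c <;> omega

end Pool.Agent.J6H98.MK
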