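import Pool.Agent.J6H98.MK.Stm

/-!
# Module PER: the period of the recursion modulo `p`
-/

set_option autoImplicit false

namespace Pool.Agent.J6H98.MK

namespace PER

theorem map_sU {R S : Type} [CommRing R] [CommRing S] (f : R →+* S) (x : R) (n : ℕ) :
    f (sU x n) = sU (f x) n := by
  induction n using Nat.strong_induction_on with
  | _ n ih =>
    match n with
    | 0 => simp [sU]
    | 1 => simp [sU]
    | n + 2 =>
      simp only [sU, map_sub, map_mul]
      rw [ih (n + 1) (by omega), ih n (by omega)]

theorem binet {R : Type} [CommRing R] {z w x : R} (h1 : z * w = 1) (h2 : z + w = x) (n : ℕ) :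
    (z - w) * sU x n = z ^ n - w ^ n := by
  induction n using Nat.strong_induction_on with
  | _ n ih =>
    match n with
    | 0 => simp [sU]
    | 1 => simp [sU]
    | n + 2 =>
      simp only [sU]
      have e1 := ih (n + 1) (by omega)
      have e2 := ih n (by omega)
      calc (z - w) * (x * sU x (n + 1) - sU x n)
          = x * ((z - w) * sU x (n + 1)) - (z - w) * sU x n := by ring
        _ = (z + w) * (z ^ (n + 1) - w ^ (n + 1)) - (z ^ n - w ^ n) := by rw [e1, e2, h2]
        _ = z ^ (n + 2) - w ^ (n + 2) + (z * w - 1) * (z ^ n - w ^ n) := by ring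
        _ = z ^ (n + 2) - w ^ (n + 2) := by rw [h1]; ring

theorem sU_two {R : Type} [CommRing R] (n : ℕ) : sU (2 : R) n = n := by
  induction n using Nat.strong_induction_on with
  | _ n ih =>
    match n with
    | 0 => simp [sU]
    | 1 => simp [sU]
    | n + 2 =>
      simp only [sU]
      rw [ih (n + 1) (by omega), ih n (by omega)]
      push_cast
      ring

theorem sU_neg_two {R : Type} [CommRing R] (n : ℕ) :
    sU (-2 : R) n = (-1) ^ (n + 1) * n := by
  induction n using Nat.strong_induction_on with
  | _ n ih =>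
    match n with
    | 0 => simp [sU]
    | 1 => simp [sU]
    | n + 2 =>
      simp only [sU]
      rw [ih (n + 1) (by omega), ih n (by omega)]
      push_cast
      ring

end PER

open PER in
/-- PER -/
theorem t_PER : S_PER := by
  intro p hp hp2 x
  have hpr : p.Prime := hp.out
  refine ⟨fun hx => ?_, fun hx => ?_⟩
  · let K := AlgebraicClosure (ZMod p)
    let f : ZMod p →+* K := algebraMap (ZMod p) K
    have : CharP K p := charP_of_injective_algebraMap f.injective p
    have h2 : (2 : K) ≠ 0 := by
      intro h
      have h3 : ((2 : ℕ) : K) = 0 := by exact_mod_cast h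
      rw [CharP.cast_eq_zero_iff K p] at h3
      exact hp2 ((Nat.prime_dvd_prime_iff_eq hpr Nat.prime_two).1 h3)
    obtain ⟨δ, hδ⟩ := IsAlgClosed.exists_pow_nat_eq (f x ^ 2 - 4) (n := 2) (by norm_num)
    have hδ0 : δ ≠ 0 := by
      intro h
      rw [h] at hδ
      have h3 : f x ^ 2 = 4 := by
        have : (0 : K) ^ 2 = 0 := by ring
        rw [this] at hδ
        linear_combination -hδ
      apply hx
      apply f.injective
      rw [map_pow, h3]
      exact (map_ofNat f 4).symm
    obtain ⟨i, hi⟩ : ∃ i : K, 2 * i = 1 := ⟨(2 : K)⁻¹, mul_inv_cancel₀ h2⟩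
    set z : K := (f x + δ) * i with hz
    set w : K := (f x - δ) * i with hw
    have hzw : z * w = 1 := by
      rw [hz, hw]
      linear_combination (-i ^ 2) * hδ + (2 * i + 1) * hi
    have hzw2 : z + w = f x := by
      rw [hz, hw]
      linear_combination (f x) * hi
    have hzwd : z - w = δ := by
      rw [hz, hw]
      linear_combination δ * hi
    have hz0 : z ≠ 0 := left_ne_zero_of_mul_eq_one hzw
    have hw0 : w ≠ 0 := right_ne_zero_of_mul_eq_one hzw
    have hfr : z ^ p + w ^ p = z + w := by
      rw [← add_pow_char, hzw2, ← map_pow, ZMod.pow_card]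
    have hpp : z ^ p * w ^ p = 1 := by rw [← mul_pow, hzw, one_pow]
    have hcase : z ^ p = z ∨ z ^ p = w := by
      have h3 : (z ^ p - z) * (z ^ p - w) = 0 := by
        have : (z ^ p - z) * (z ^ p - w) =
            z ^ p * z ^ p - z ^ p * (z + w) + z * w := by ring
        rw [this, ← hfr, hzw, mul_add, hpp]
        ring
      rcases mul_eq_zero.1 h3 with h | h
      · exact Or.inl (sub_eq_zero.1 h)
      · exact Or.inr (sub_eq_zero.1 h)
    have hz2 : z ^ (p ^ 2) = z := by
      rw [pow_two, pow_mul]
      rcases hcase with h | h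
      · rw [h, h]
      · rw [h]
        rw [h] at hfr
        linear_combination hfr
    have hw2 : w ^ (p ^ 2) = w := by
      have h3 : z ^ (p ^ 2) * w ^ (p ^ 2) = 1 := by rw [← mul_pow, hzw, one_pow]
      rw [hz2] at h3
      calc w ^ (p ^ 2) = (z * w) * w ^ (p ^ 2) := by rw [hzw, one_mul]
        _ = w * (z * w ^ (p ^ 2)) := by ring
        _ = w := by rw [h3, mul_one]
    have hpos : 1 ≤ p ^ 2 := Nat.one_le_pow _ _ hpr.pos
    have hz1 : z ^ (p ^ 2 - 1) = 1 := by
      have h3 : z * z ^ (p ^ 2 - 1) = z * 1 := by
        rw [← pow_succ', Nat.sub_add_cancel hpos, hz2, mul_one]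
      exact mul_left_cancel₀ hz0 h3
    have hw1 : w ^ (p ^ 2 - 1) = 1 := by
      have h3 : w * w ^ (p ^ 2 - 1) = w * 1 := by
        rw [← pow_succ', Nat.sub_add_cancel hpos, hw2, mul_one]
      exact mul_left_cancel₀ hw0 h3
    constructor
    · apply f.injective
      rw [map_sU, map_zero]
      have h3 := binet hzw hzw2 (p ^ 2 - 1)
      rw [hz1, hw1, sub_self, hzwd] at h3
      exact (mul_eq_zero.1 h3).resolve_left hδ0
    · apply f.injective
      rw [map_sU, map_one]
      have h3 := binet hzw hzw2 (p ^ 2)
      rw [hz2, hw2, hzwd] at h3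
      exact mul_left_cancel₀ hδ0 (by rw [h3, mul_one])
  · have h3 : x = 2 ∨ x = -2 := by
      have : (x - 2) * (x + 2) = 0 := by linear_combination hx
      rcases mul_eq_zero.1 this with h | h
      · exact Or.inl (sub_eq_zero.1 h)
      · exact Or.inr (eq_neg_of_add_eq_zero_left h)
    rcases h3 with rfl | rfl
    · rw [sU_two, sU_two]
      push_cast
      simp
    · rw [sU_neg_two, sU_neg_two]
      push_cast
      constructor
      · simp
      · have : (-1 : ZMod p) ^ (2 * p + 1 + 1) = 1 := by
          rw [show 2 * p + 1 + 1 = 2 * (p + 1) by ring, pow_mul]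
          simp
        rw [this]
        simp

end Pool.Agent.J6H98.MK
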