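import Pool.Agent.J6H98.MK.Stm2

/-!
# Module TRV: the rotation of order `p ^ 2 - 1` acts on a fibre by transvections
-/

set_option autoImplicit false

namespace Pool.Agent.J6H98.MK

namespace TRV

theorem sS_succ {R : Type} [CommRing R] (x y z : R) (n : ℕ) :
    sS x y z (n + 1) = sU x (n + 1) * z - sU x n * y := by
  induction n using Nat.strong_induction_on with
  | _ n ih =>
    match n, ih with
    | 0, _ => show z = 1 * z - 0 * y; ring
    | 1, _ => show x * z - y = (x * 1 - 0) * z - 1 * y; ring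
    | n + 2, ih =>
      have h1 := ih n (by omega)
      have h2 := ih (n + 1) (by omega)
      show x * sS x y z (n + 2) - sS x y z (n + 1) =
        (x * sU x (n + 2) - sU x (n + 1)) * z - (x * sU x (n + 1) - sU x n) * y
      rw [h1, h2]
      ring

theorem iter {R : Type} [CommRing R] (x y z : R) (n : ℕ) :
    rX^[n] (x, y, z) = (x, sS x y z n, sS x y z (n + 1)) := by
  induction n with
  | zero => rfl
  | succ n ih =>
    rw [Function.iterate_succ_apply', ih]
    rfl

theorem cassini {R : Type} [CommRing R] (x : R) (n : ℕ) :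
    sU x (n + 1) ^ 2 - x * sU x (n + 1) * sU x n + sU x n ^ 2 = 1 := by
  induction n with
  | zero => show (1 : R) ^ 2 - x * 1 * 0 + 0 ^ 2 = 1; ring
  | succ n ih =>
    show (x * sU x (n + 1) - sU x n) ^ 2 - x * (x * sU x (n + 1) - sU x n) * sU x (n + 1) +
      sU x (n + 1) ^ 2 = 1
    linear_combination ih

theorem map_sU {R R' : Type} [CommRing R] [CommRing R'] (f : R →+* R') (x : R) (n : ℕ) :
    f (sU x n) = sU (f x) n := by
  induction n using Nat.strong_induction_on with
  | _ n ih =>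
    match n, ih with
    | 0, _ => exact map_zero f
    | 1, _ => exact map_one f
    | n + 2, ih =>
      show f (x * sU x (n + 1) - sU x n) = f x * sU (f x) (n + 1) - sU (f x) n
      rw [map_sub, map_mul, ih (n + 1) (by omega), ih n (by omega)]

theorem inv {R : Type} [CommRing R] {D : R} {w : R × R × R}
    (h : w.1 ^ 2 + w.2.1 ^ 2 + w.2.2 ^ 2 = w.1 * w.2.1 * w.2.2 + D) (n : ℕ) :
    (rX^[n] w).1 ^ 2 + (rX^[n] w).2.1 ^ 2 + (rX^[n] w).2.2 ^ 2 =
      (rX^[n] w).1 * (rX^[n] w).2.1 * (rX^[n] w).2.2 + D := by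
  induction n with
  | zero => exact h
  | succ n ih =>
    rw [Function.iterate_succ_apply']
    simp only [rX]
    linear_combination ih

section pp
variable {p : ℕ} [hp : Fact p.Prime]

theorem pp_zero : (p : ZMod (p ^ 2)) * p = 0 := by
  have h : ((p ^ 2 : ℕ) : ZMod (p ^ 2)) = 0 := ZMod.natCast_self (p ^ 2)
  calc (p : ZMod (p ^ 2)) * p = ((p ^ 2 : ℕ) : ZMod (p ^ 2)) := by push_cast; ring
    _ = 0 := h

theorem exists_of_red {a : ZMod (p ^ 2)} (h : red p a = 0) : ∃ k, a = p * k := by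
  have hne : NeZero (p ^ 2) := ⟨pow_ne_zero 2 hp.out.ne_zero⟩
  have h1 : a = ((a.val : ℕ) : ZMod (p ^ 2)) := (ZMod.natCast_zmod_val a).symm
  rw [h1, map_natCast, ZMod.natCast_eq_zero_iff] at h
  obtain ⟨k, hk⟩ := h
  refine ⟨(k : ZMod (p ^ 2)), ?_⟩
  rw [h1, hk, Nat.cast_mul]

theorem unit_of_red {a : ZMod (p ^ 2)} (h : red p a ≠ 0) : IsUnit a := by
  have hne : NeZero (p ^ 2) := ⟨pow_ne_zero 2 hp.out.ne_zero⟩
  have h1 : a = ((a.val : ℕ) : ZMod (p ^ 2)) := (ZMod.natCast_zmod_val a).symm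
  rw [h1, map_natCast, Ne, ZMod.natCast_eq_zero_iff] at h
  rw [h1, ZMod.isUnit_iff_coprime]
  exact Nat.Coprime.pow_right 2 ((hp.out.coprime_iff_not_dvd.2 h).symm)

theorem mul_zero_of_red {a b : ZMod (p ^ 2)} (ha : red p a = 0) (hb : red p b = 0) : a * b = 0 := by
  obtain ⟨k, rfl⟩ := exists_of_red ha
  obtain ⟨l, rfl⟩ := exists_of_red hb
  linear_combination (k * l) * (pp_zero (p := p))

end pp

end TRV

open TRV in
theorem t_TRV : S_TRV := by
  intro hPER p hp hp5 D w hw w' hw' hred hx h4 h2 hb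
  obtain ⟨x, y, z⟩ := w
  obtain ⟨x', y', z'⟩ := w'
  have hxx : x = x' := hx
  subst hxx
  obtain ⟨-, hry, hrz⟩ : red p x = red p x ∧ red p y = red p y' ∧ red p z = red p z' := by
    simpa only [red3, Prod.mk.injEq] using hred
  have hb' : sU x (p ^ 2 - 1) ≠ 0 := hb
  have h2' : red p (2 * z - x * y) ≠ 0 := h2
  have hE : x ^ 2 + y ^ 2 + z ^ 2 = x * y * z + D := hw.1
  have hE' : x ^ 2 + y' ^ 2 + z' ^ 2 = x * y' * z' + D := hw'.1
  obtain ⟨hper1, hper2⟩ := (hPER p (by omega) (red p x)).1 h4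
  have hp25 : 25 ≤ p ^ 2 := by nlinarith
  obtain ⟨n, hn⟩ : ∃ n, p ^ 2 - 1 = n + 1 := ⟨p ^ 2 - 2, by omega⟩
  have hn2 : p ^ 2 = n + 2 := by omega
  rw [congrArg (sU (red p x)) hn] at hper1
  rw [congrArg (sU (red p x)) hn2] at hper2
  rw [congrArg (sU x) hn] at hb'
  obtain ⟨b, hbdef⟩ : ∃ b, b = sU x (n + 1) := ⟨_, rfl⟩
  obtain ⟨e, hedef⟩ : ∃ e, e = sU x (n + 2) - 1 := ⟨_, rfl⟩
  have hrb : red p b = 0 := by rw [hbdef, map_sU, hper1]
  have hre : red p e = 0 := by rw [hedef, map_sub, map_sU, hper2, map_one, sub_self]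
  have hbb : b * b = 0 := mul_zero_of_red hrb hrb
  have hbe : b * e = 0 := mul_zero_of_red hrb hre
  have hee : e * e = 0 := mul_zero_of_red hre hre
  have hU2 : sU x (n + 2) = 1 + e := by rw [hedef]; ring
  have hU0 : sU x n = x * b - 1 - e := by
    have h : sU x (n + 2) = x * sU x (n + 1) - sU x n := rfl
    rw [hU2, ← hbdef] at h
    linear_combination h
  have h2e : 2 * e = x * b := by
    have h := cassini x (n + 1)
    rw [show n + 1 + 1 = n + 2 from rfl, hU2, ← hbdef] at h
    linear_combination h - hee + x * hbe - hbb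
  -- one half
  have h2u : IsUnit (2 : ZMod (p ^ 2)) := by
    apply unit_of_red
    rw [map_ofNat]
    intro h0
    have h1 : ((2 : ℕ) : ZMod p) = 0 := by exact_mod_cast h0
    rw [ZMod.natCast_eq_zero_iff] at h1
    have := Nat.le_of_dvd (by norm_num) h1
    omega
  obtain ⟨h, hh⟩ := h2u.exists_right_inv
  have he : e = h * x * b := by linear_combination h * h2e - e * hh
  -- the powers of the rotation
  have step : ∀ u v : ZMod (p ^ 2), rX^[n + 1] (x, u, v) =
      (x, u + b * h * (2 * v - x * u), v + b * h * (x * v - 2 * u)) := by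
    intro u v
    rw [iter, sS_succ, sS_succ, hU0, hU2, ← hbdef]
    refine Prod.ext rfl (Prod.ext ?_ ?_)
    · show b * v - (x * b - 1 - e) * u = u + b * h * (2 * v - x * u)
      rw [he]
      linear_combination (x * b * u - b * v) * hh
    · show (1 + e) * v - b * u = v + b * h * (x * v - 2 * u)
      rw [he]
      linear_combination (b * u) * hh
  have steps : ∀ j : ℕ, rX^[(n + 1) * j] (x, y, z) =
      (x, y + j * (b * h * (2 * z - x * y)), z + j * (b * h * (x * z - 2 * y))) := by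
    intro j
    induction j with
    | zero => simp
    | succ j ih =>
      rw [show (n + 1) * (j + 1) = (n + 1) + (n + 1) * j by ring, Function.iterate_add_apply, ih,
        step]
      refine Prod.ext rfl (Prod.ext ?_ ?_)
      · push_cast
        linear_combination (h * j * h * (2 * (x * z - 2 * y) - x * (2 * z - x * y))) * hbb
      · push_cast
        linear_combination (h * j * h * (x * (x * z - 2 * y) - 2 * (2 * z - x * y))) * hbb
  -- the number of steps
  obtain ⟨k, hk⟩ : ∃ k, y' - y = p * k := exists_of_red (by rw [map_sub, hry, sub_self])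
  obtain ⟨β, hβ⟩ := exists_of_red hrb
  have hβu : IsUnit β := by
    apply unit_of_red
    intro h0
    obtain ⟨l, hl⟩ := exists_of_red h0
    apply hb'
    rw [← hbdef, hβ, hl]
    linear_combination l * (pp_zero (p := p))
  obtain ⟨c, hc⟩ := hβu.exists_right_inv
  obtain ⟨d, hd⟩ := (unit_of_red h2').exists_right_inv
  have hne : NeZero (p ^ 2) := ⟨pow_ne_zero 2 hp.out.ne_zero⟩
  refine ⟨(k * (c * (2 * d))).val, ?_⟩
  rw [hn, steps, ZMod.natCast_zmod_val]
  have hy : y + k * (c * (2 * d)) * (b * h * (2 * z - x * y)) = y' := by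
    have h5 : k * (c * (2 * d)) * (b * h * (2 * z - x * y)) = p * k := by
      rw [hβ]
      calc k * (c * (2 * d)) * (p * β * h * (2 * z - x * y))
          = p * k * (β * c) * (2 * h) * ((2 * z - x * y) * d) := by ring
        _ = p * k := by rw [hc, hh, hd]; ring
    rw [h5, ← hk]
    ring
  obtain ⟨z₁, hz₁⟩ : ∃ z₁, z₁ = z + k * (c * (2 * d)) * (b * h * (x * z - 2 * y)) := ⟨_, rfl⟩
  rw [hy, ← hz₁]
  have hE₁ : x ^ 2 + y' ^ 2 + z₁ ^ 2 = x * y' * z₁ + D := by
    have h5 := inv (w := (x, y, z)) hE ((n + 1) * (k * (c * (2 * d))).val)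
    rw [steps, ZMod.natCast_zmod_val, hy, ← hz₁] at h5
    exact h5
  have hrz₁ : red p z₁ = red p z := by
    rw [hz₁, map_add, map_mul, map_mul _ (b * h), map_mul _ b, hrb]
    ring
  have hu : IsUnit (z₁ + z' - x * y') := by
    apply unit_of_red
    rw [map_sub, map_add, hrz₁, ← hrz, map_mul, ← hry]
    rw [map_sub, map_mul, map_mul, map_ofNat] at h2'
    intro h0
    apply h2'
    linear_combination h0
  have h6 : (z₁ - z') * (z₁ + z' - x * y') = 0 := by linear_combination hE₁ - hE'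
  have h7 : z₁ - z' = 0 := (hu.mul_left_eq_zero).1 h6
  rw [sub_eq_zero.1 h7]

end Pool.Agent.J6H98.MK
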