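import Pool.Agent.J6H98.MK.Stm

/-!
# Module VAR: variation of `sU` modulo `p ^ 2`
-/

set_option autoImplicit false

open Polynomial

namespace Pool.Agent.J6H98.MK

section

variable {R : Type} [CommRing R]

/-- the derivative of `sU` with respect to `x` -/
def vD (x : R) : ℕ → R
  | 0 => 0
  | 1 => 0
  | n + 2 => sU x (n + 1) + x * vD x (n + 1) - vD x n

theorem v_expand (x e : R) (he : e * e = 0) (n : ℕ) : sU (x + e) n = sU x n + e * vD x n := by
  induction n using Nat.twoStepInduction with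
  | zero => simp [sU, vD]
  | one => simp [sU, vD]
  | more n h1 h2 =>
    rw [sU, sU, vD, h1, h2]
    linear_combination (vD x (n + 1)) * he

theorem v_l1 (x : R) (n : ℕ) : x * sC x (n + 1) - 2 * sC x n = (x ^ 2 - 4) * sU x (n + 1) := by
  induction n using Nat.twoStepInduction with
  | zero =>
    simp only [sC, sU]
    ring
  | one =>
    simp only [sC, sU]
    ring
  | more n h1 h2 =>
    have e1 : sC x (n + 2) = x * sC x (n + 1) - sC x n := rfl
    have e2 : sC x (n + 2 + 1) = x * sC x (n + 2) - sC x (n + 1) := rfl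
    have e3 : sU x (n + 2 + 1) = x * sU x (n + 2) - sU x (n + 1) := rfl
    rw [e2, e3]
    have h2' : x * sC x (n + 2) - 2 * sC x (n + 1) = (x ^ 2 - 4) * sU x (n + 2) := h2
    linear_combination x * h2' - h1 - 2 * e1

theorem v_l2 (x : R) (n : ℕ) : sC x n = 2 * sU x (n + 1) - x * sU x n := by
  induction n using Nat.twoStepInduction with
  | zero =>
    simp only [sC, sU]
    ring
  | one =>
    simp only [sC, sU]
    ring
  | more n h1 h2 =>
    have e1 : sC x (n + 2) = x * sC x (n + 1) - sC x n := rfl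
    have e2 : sU x (n + 2) = x * sU x (n + 1) - sU x n := rfl
    have e3 : sU x (n + 2 + 1) = x * sU x (n + 2) - sU x (n + 1) := rfl
    have h2' : sC x (n + 1) = 2 * sU x (n + 2) - x * sU x (n + 1) := h2
    rw [e1, e3]
    linear_combination x * h2' - h1 + x * e2

theorem v_deriv (x : R) (n : ℕ) : (x ^ 2 - 4) * vD x n = n * sC x n - x * sU x n := by
  induction n using Nat.twoStepInduction with
  | zero => simp [sC, sU, vD]
  | one => simp [sC, sU, vD]
  | more n h1 h2 =>
    have e1 : sC x (n + 2) = x * sC x (n + 1) - sC x n := rfl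
    have e2 : sU x (n + 2) = x * sU x (n + 1) - sU x n := rfl
    have e3 : vD x (n + 2) = sU x (n + 1) + x * vD x (n + 1) - vD x n := rfl
    have h3 := v_l1 x n
    rw [e1, e2, e3]
    push_cast at h1 h2 ⊢
    linear_combination x * h2 - h1 - h3

theorem v_map {S : Type} [CommRing S] (f : R →+* S) (x : R) (n : ℕ) : sU (f x) n = f (sU x n) := by
  induction n using Nat.twoStepInduction with
  | zero => simp [sU]
  | one => simp [sU]
  | more n h1 h2 => rw [sU, sU, h1, h2, map_sub, map_mul]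

theorem v_sU2 (s : R) (hs : s * s = 1) (n : ℕ) : sU (2 * s) n = s ^ (n + 1) * n := by
  induction n using Nat.twoStepInduction with
  | zero => simp [sU]
  | one =>
    simp only [sU]
    push_cast
    linear_combination -hs
  | more n h1 h2 =>
    rw [sU, h1, h2]
    push_cast
    linear_combination (-(s ^ (n + 1)) * (n : R) + (s ^ (n + 1)) * (n : R)
      + s ^ (n + 1) * (2 * (n + 1)) - s ^ (n + 1) * (n + 2)) * hs

theorem v_D2 (s : R) (hs : s * s = 1) (n : ℕ) :
    6 * vD (2 * s) n = s ^ n * ((n : R) ^ 3 - n) := by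
  induction n using Nat.twoStepInduction with
  | zero => simp [vD]
  | one => simp [vD]
  | more n h1 h2 =>
    have e3 : vD (2 * s) (n + 2) = sU (2 * s) (n + 1) + 2 * s * vD (2 * s) (n + 1) - vD (2 * s) n :=
      rfl
    rw [e3, v_sU2 s hs]
    push_cast at h1 h2 ⊢
    have h3 : s ^ (n + 2) = s ^ n := by
      rw [pow_add, pow_two, hs, mul_one]
    rw [h3]
    have h5 : s ^ (n + 1) * s = s ^ n := by
      rw [← pow_succ]
      exact h3
    linear_combination (2 * s) * h2 - h1 + 2 * ((n + 1 : R) ^ 3 - (n + 1)) * h5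

end

theorem v_ker (p : ℕ) [Fact p.Prime] (e : ZMod (p ^ 2)) (he : red p e = 0) :
    ∃ u : ZMod (p ^ 2), e = (p : ZMod (p ^ 2)) * u := by
  have hp : p.Prime := Fact.out
  have : NeZero (p ^ 2) := ⟨pow_ne_zero 2 hp.ne_zero⟩
  have h1 : e = ((e.val : ℕ) : ZMod (p ^ 2)) := (ZMod.natCast_zmod_val e).symm
  rw [h1, map_natCast, ZMod.natCast_eq_zero_iff] at he
  obtain ⟨k, hk⟩ := he
  exact ⟨(k : ZMod (p ^ 2)), by rw [h1, hk, Nat.cast_mul]⟩

theorem v_unit (p : ℕ) [Fact p.Prime] (a : ZMod (p ^ 2)) (ha : red p a ≠ 0) : IsUnit a := by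
  have hp : p.Prime := Fact.out
  have : NeZero (p ^ 2) := ⟨pow_ne_zero 2 hp.ne_zero⟩
  have h1 : a = ((a.val : ℕ) : ZMod (p ^ 2)) := (ZMod.natCast_zmod_val a).symm
  rw [h1, map_natCast, ne_eq, ZMod.natCast_eq_zero_iff] at ha
  rw [h1, ZMod.isUnit_iff_coprime]
  exact Nat.Coprime.pow_right 2 (((Nat.Prime.coprime_iff_not_dvd hp).2 ha).symm)

theorem v_sq (p : ℕ) : (p : ZMod (p ^ 2)) * p = 0 := by
  rw [← Nat.cast_mul, ← pow_two]
  exact ZMod.natCast_self _

theorem t_VAR : S_VAR := by
  intro hPER p _ hp5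
  have hp : p.Prime := Fact.out
  have hp2 : p ≠ 2 := by omega
  refine ⟨?_, ?_⟩
  · intro x y hxy hne hU
    obtain ⟨h1, h2⟩ := (hPER p hp2 (red p x)).1 hne
    have he : red p (y - x) = 0 := by rw [map_sub, hxy, sub_self]
    obtain ⟨u, hu⟩ := v_ker p _ he
    have hee : (y - x) * (y - x) = 0 := by
      rw [hu]
      linear_combination (u * u) * v_sq p
    have h3 := v_expand x (y - x) hee (p ^ 2 - 1)
    rw [add_sub_cancel, ← hU] at h3
    have h4 : (y - x) * vD x (p ^ 2 - 1) = 0 := by
      linear_combination -h3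
    have h5 := v_deriv x (p ^ 2 - 1)
    have h6 : IsUnit (((p ^ 2 - 1 : ℕ) : ZMod (p ^ 2)) * sC x (p ^ 2 - 1) - x * sU x (p ^ 2 - 1)) := by
      apply v_unit
      rw [map_sub, map_mul, map_mul, map_natCast, v_l2, map_sub, map_mul, map_mul, ← v_map, ← v_map,
        h1]
      have h7 : p ^ 2 - 1 + 1 = p ^ 2 := by
        have h8 : 1 ≤ p ^ 2 := Nat.one_le_pow _ _ hp.pos
        omega
      rw [h7, h2]
      have h8 : ((p ^ 2 - 1 : ℕ) : ZMod p) = -1 := by
        have h9 : ((p ^ 2 - 1 + 1 : ℕ) : ZMod p) = 0 := by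
          rw [h7, Nat.cast_pow, ZMod.natCast_self]
          ring
        rw [Nat.cast_add, Nat.cast_one] at h9
        linear_combination h9
      rw [h8, map_ofNat]
      intro h10
      have h11 : ((2 : ℕ) : ZMod p) = 0 := by
        push_cast
        linear_combination -h10
      rw [ZMod.natCast_eq_zero_iff] at h11
      have h12 := Nat.le_of_dvd (by norm_num) h11
      omega
    have h7 : (y - x) * (((p ^ 2 - 1 : ℕ) : ZMod (p ^ 2)) * sC x (p ^ 2 - 1) -
        x * sU x (p ^ 2 - 1)) = 0 := by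
      rw [← h5]
      linear_combination (x ^ 2 - 4) * h4
    have h8 : y - x = 0 := (h6.mul_left_eq_zero).1 h7
    exact (sub_eq_zero.1 h8).symm
  · intro x hx h0
    obtain ⟨s, hs, hxs⟩ : ∃ s : ZMod (p ^ 2), s * s = 1 ∧ red p (x - 2 * s) = 0 := by
      have h1 : (red p x - 2) * (red p x + 2) = 0 := by
        linear_combination hx
      rcases mul_eq_zero.1 h1 with h | h
      · refine ⟨1, by ring, ?_⟩
        rw [map_sub, map_mul, map_one, map_ofNat]
        linear_combination h
      · refine ⟨-1, by ring, ?_⟩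
        rw [map_sub, map_mul, map_neg, map_one, map_ofNat]
        linear_combination h
    obtain ⟨u, hu⟩ := v_ker p _ hxs
    have hee : (x - 2 * s) * (x - 2 * s) = 0 := by
      rw [hu]
      linear_combination (u * u) * v_sq p
    have h3 := v_expand (2 * s) (x - 2 * s) hee (2 * p)
    rw [add_sub_cancel, h0, v_sU2 s hs, hu] at h3
    have h4 := v_D2 s hs (2 * p)
    have h5 : s ^ (2 * p) = 1 := by
      rw [pow_mul, pow_two s, hs, one_pow]
    rw [pow_succ s (2 * p), h5] at h3
    rw [h5] at h4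
    push_cast at h3 h4
    have h6 : ((12 * p : ℕ) : ZMod (p ^ 2)) = 0 := by
      push_cast
      have h7 : (12 : ZMod (p ^ 2)) * p * s = 0 := by
        linear_combination -6 * h3 - (p : ZMod (p ^ 2)) * u * h4 -
          u * (8 * (p : ZMod (p ^ 2)) ^ 2 - 2) * v_sq p
      have h8 : (12 : ZMod (p ^ 2)) * p * s * s = 0 := by rw [h7, zero_mul]
      linear_combination h8 - 12 * p * hs
    rw [ZMod.natCast_eq_zero_iff, pow_two] at h6
    have h7 : p ∣ 12 := Nat.dvd_of_mul_dvd_mul_right hp.pos h6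
    have h8 : p ≤ 12 := Nat.le_of_dvd (by norm_num) h7
    interval_cases p <;> revert h7 hp <;> decide

end Pool.Agent.J6H98.MK
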