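import Pool.Agent.J6H98.MK.Main
import Pool.Agent.J6H98.MK.PER
import Pool.Agent.J6H98.MK.VAR
import Pool.Agent.J6H98.MK.CFX
import Pool.Agent.J6H98.MK.LFT
import Pool.Agent.J6H98.MK.CHP
import Pool.Agent.J6H98.MK.ORT
import Pool.Agent.J6H98.MK.ALG
import Pool.Agent.J6H98.MK.HEN
import Pool.Agent.J6H98.MK.TRV
import Pool.Agent.J6H98.MK.FCO
import Pool.Agent.J6H98.MK.GPT

/-!
# Project MK: consequences of the main theorem (helper98)
-/

set_option autoImplicit false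

namespace Pool.Agent.J6H98.MK

section cor

variable (p : ℕ) [Fact p.Prime]

/-- the main theorem with the hypothesis on the orbit modulo `p` -/
theorem main2 (hFIB : S_FIB) (hp : 13 ≤ p) (D : ZMod (p ^ 2))
    (hD : ∀ a : ZMod p, a ^ 2 = red p D → a = 0)
    (v : ZMod (p ^ 2) × ZMod (p ^ 2) × ZMod (p ^ 2)) (hv : v ∈ Xs D)
    (hmax : ∃ w ∈ MulAction.orbit (AutX (ZMod p)) (red3 p v), ∃ g : ZMod p,
      orderOf g = p - 1 ∧ w.1 = g + g⁻¹) :
    MulAction.orbit (AutX (ZMod (p ^ 2))) v =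
      {u | u ∈ Xs D ∧ red3 p u ∈ MulAction.orbit (AutX (ZMod p)) (red3 p v)} ∧
    Nat.card (MulAction.orbit (AutX (ZMod (p ^ 2))) v) =
      p ^ 2 * Nat.card (MulAction.orbit (AutX (ZMod p)) (red3 p v)) := by
  have hpp : p.Prime := Fact.out
  have himg : red3 p '' orb p v = MulAction.orbit (AutX (ZMod p)) (red3 p v) := by
    ext P
    constructor
    · rintro ⟨_, ⟨g, rfl⟩, rfl⟩
      obtain ⟨g', hg1, hg2⟩ := autX_map (red p) g.1 g.2
      refine ⟨⟨g', hg1⟩, ?_⟩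
      show g' (red3 p v) = red3 p (g.1 v)
      rw [red3_eq, hg2]
    · rintro ⟨g', rfl⟩
      obtain ⟨g, hg1, hg2⟩ := autX_lift (red p) g'.1 g'.2
      refine ⟨g v, ⟨⟨g, hg1⟩, rfl⟩, ?_⟩
      show red3 p (g v) = g'.1 (red3 p v)
      rw [red3_eq, hg2]
  have hD4 : red p D ≠ 4 := by
    intro h
    have h1 := hD 2 (by rw [h]; norm_num)
    have h6 : ((2 : ℕ) : ZMod p) = 0 := by exact_mod_cast h1
    rw [ZMod.natCast_eq_zero_iff] at h6
    have := Nat.le_of_dvd (by norm_num) h6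
    omega
  obtain ⟨w', hw', g, hg, hwg⟩ := hmax
  rw [← himg] at hw'
  obtain ⟨w, hw, rfl⟩ := hw'
  obtain ⟨h1, h2⟩ := main p t_PER t_VAR t_CFX t_LFT (fin t_CHP t_ORT t_ALG) t_HEN t_TRV t_FCO
    hFIB t_GPT hp D hD4 hD v hv g hg w hw hwg
  rw [← himg]
  refine ⟨?_, by rw [h2, Nat.card_coe_set_eq]⟩
  ext u
  constructor
  · intro hu
    refine ⟨?_, ⟨u, hu, rfl⟩⟩
    obtain ⟨h, rfl⟩ := hu
    exact (autX_Xs p D h.1 h.2 v).1 hv
  · rintro ⟨hu1, hu2⟩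
    exact h1 u hu1 hu2

/-- `X_D^*(F_p)` contains a point with maximal hyperbolic first coordinate -/
theorem exists_max (hp : 13 ≤ p) (D : ZMod p) :
    ∃ w ∈ Xs D, ∃ g : ZMod p, orderOf g = p - 1 ∧ w.1 = g + g⁻¹ := by
  have hpp : p.Prime := Fact.out
  obtain ⟨γ, hγ⟩ := IsCyclic.exists_generator (α := (ZMod p)ˣ)
  have hord : orderOf (γ : ZMod p) = p - 1 := by
    rw [orderOf_units, orderOf_eq_card_of_forall_mem_zpowers hγ, Nat.card_eq_fintype_card,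
      ZMod.card_units]
  obtain ⟨g, hg⟩ : ∃ g : ZMod p, g = (γ : ZMod p) := ⟨_, rfl⟩
  rw [← hg] at hord
  have hg0 : g ≠ 0 := by rw [hg]; exact γ.ne_zero
  have hgord : ∀ n, g ^ n = 1 → 0 < n → 12 ≤ n := by
    intro n h1 h2
    have := Nat.le_of_dvd h2 (orderOf_dvd_of_pow_eq_one h1)
    omega
  have hgi : g * g⁻¹ = 1 := mul_inv_cancel₀ hg0
  have hg2 : g ^ 2 ≠ 1 := fun h => by
    have := hgord 2 h (by norm_num)
    omega
  have hx4 : 4 - (g + g⁻¹) ^ 2 ≠ 0 := by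
    intro h
    have h1 : (g - g⁻¹) ^ 2 = 0 := by linear_combination -h - 4 * hgi
    have h2 : g - g⁻¹ = 0 := pow_eq_zero_iff (two_ne_zero) |>.1 h1
    exact hg2 (by linear_combination g * h2 + hgi)
  obtain ⟨b, hb⟩ : ∃ b, b = (D - (g + g⁻¹) ^ 2) / (4 - (g + g⁻¹) ^ 2) := ⟨_, rfl⟩
  have hb' : b * (4 - (g + g⁻¹) ^ 2) = D - (g + g⁻¹) ^ 2 := by rw [hb]; exact div_mul_cancel₀ _ hx4
  refine ⟨(g + g⁻¹, 1 + b, g + b * g⁻¹), ⟨?_, ?_⟩, g, hord, rfl⟩
  · show (g + g⁻¹) ^ 2 + (1 + b) ^ 2 + (g + b * g⁻¹) ^ 2 =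
      (g + g⁻¹) * (1 + b) * (g + b * g⁻¹) + D
    linear_combination hb' - (1 - b) ^ 2 * hgi
  · show IsUnit (2 * (g + g⁻¹) - (1 + b) * (g + b * g⁻¹)) ∨
      IsUnit (2 * (1 + b) - (g + g⁻¹) * (g + b * g⁻¹)) ∨
      IsUnit (2 * (g + b * g⁻¹) - (g + g⁻¹) * (1 + b))
    right
    rw [isUnit_iff_ne_zero, isUnit_iff_ne_zero]
    by_contra hcon
    push Not at hcon
    obtain ⟨h1, h2⟩ := hcon
    have h3 : (g ^ 2 - 1) * (1 - b) = 0 := by
      linear_combination g * h2 + (1 - b) * hgi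
    have hb1 : b = 1 := by
      rcases mul_eq_zero.1 h3 with h | h
      · exact absurd (sub_eq_zero.1 h) hg2
      · exact (sub_eq_zero.1 h).symm
    rw [hb1] at h1
    have h4 : (g ^ 2 - 1) ^ 2 = 0 := by
      linear_combination -g ^ 2 * h1 - (2 * g ^ 2 + g * g⁻¹ + 1) * hgi
    exact hg2 (sub_eq_zero.1 (pow_eq_zero_iff (two_ne_zero) |>.1 h4))

theorem red3_mem_Xs (D : ZMod (p ^ 2)) (v : ZMod (p ^ 2) × ZMod (p ^ 2) × ZMod (p ^ 2))
    (hv : v ∈ Xs D) : red3 p v ∈ Xs (red p D) := by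
  obtain ⟨h1, h2⟩ := hv
  refine ⟨?_, ?_⟩
  · have := congrArg (red p) h1
    simpa [red3] using this
  · rcases h2 with h | h | h
    · left
      have := h.map (red p)
      rw [map_sub, map_mul, map_mul, map_ofNat] at this
      exact this
    · right; left
      have := h.map (red p)
      rw [map_sub, map_mul, map_mul, map_ofNat] at this
      exact this
    · right; right
      have := h.map (red p)
      rw [map_sub, map_mul, map_mul, map_ofNat] at this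
      exact this

theorem main3 (hFIB : S_FIB) (hp : 13 ≤ p) (D : ZMod (p ^ 2))
    (hD : ∀ a : ZMod p, a ^ 2 = red p D → a = 0)
    (htr : ∀ P ∈ Xs (red p D), ∀ Q ∈ Xs (red p D), Q ∈ MulAction.orbit (AutX (ZMod p)) P)
    (v : ZMod (p ^ 2) × ZMod (p ^ 2) × ZMod (p ^ 2)) (hv : v ∈ Xs D) :
    MulAction.orbit (AutX (ZMod (p ^ 2))) v = Xs D ∧
      p ^ 2 ∣ Nat.card (MulAction.orbit (AutX (ZMod (p ^ 2))) v) := by
  obtain ⟨w, hw, g, hg, hwg⟩ := exists_max p hp (red p D)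
  have hv' := red3_mem_Xs p D v hv
  obtain ⟨h1, h2⟩ := main2 p hFIB hp D hD v hv ⟨w, htr _ hv' _ hw, g, hg, hwg⟩
  refine ⟨?_, ⟨_, h2⟩⟩
  rw [h1]
  ext u
  constructor
  · exact fun h => h.1
  · exact fun h => ⟨h, htr _ hv' _ (red3_mem_Xs p D u h)⟩

end cor

end Pool.Agent.J6H98.MK
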