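import Pool.Agent.J6H98.MK.Stm3

/-!
# Project MK (helper98), module FIB (helper61): the fibre
-/

set_option autoImplicit false

namespace Pool.Agent.J6H98.MK

private theorem red_nat (p : ℕ) : red p (p : ZMod (p ^ 2)) = 0 := by
  rw [map_natCast]
  exact ZMod.natCast_self p

private theorem p_ne (p : ℕ) [Fact p.Prime] : (p : ZMod (p ^ 2)) ≠ 0 := by
  intro h
  rw [ZMod.natCast_eq_zero_iff] at h
  have hp : p.Prime := Fact.out
  have h1 := Nat.le_of_dvd hp.pos h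
  have h2 := hp.one_lt
  nlinarith

private theorem red_surj (p : ℕ) [Fact p.Prime] (x : ZMod p) : ∃ a : ZMod (p ^ 2), red p a = x := by
  refine ⟨((x.val : ℕ) : ZMod (p ^ 2)), ?_⟩
  rw [map_natCast]
  exact ZMod.natCast_zmod_val x

private theorem nontriv (p : ℕ) [Fact p.Prime] (x : ZMod p) :
    Nontrivial {a : ZMod (p ^ 2) // red p a = x} := by
  obtain ⟨a, ha⟩ := red_surj p x
  refine ⟨⟨a, ha⟩, ⟨a + (p : ZMod (p ^ 2)), by rw [map_add, red_nat, add_zero, ha]⟩, ?_⟩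
  intro h
  have h1 : a = a + (p : ZMod (p ^ 2)) := congrArg Subtype.val h
  exact p_ne p (left_eq_add.mp h1)

private theorem swp_swp {R : Type} (w : R × R × R) : swp (swp w) = w := rfl

private theorem swp_mem {R : Type} [CommRing R] {D : R} {w : R × R × R} (h : w ∈ Xs D) :
    swp w ∈ Xs D := by
  obtain ⟨h1, h2⟩ := h
  refine ⟨?_, ?_⟩
  · change w.2.1 ^ 2 + w.1 ^ 2 + w.2.2 ^ 2 = w.2.1 * w.1 * w.2.2 + D
    linear_combination h1
  · change IsUnit (2 * w.2.1 - w.1 * w.2.2) ∨ IsUnit (2 * w.1 - w.2.1 * w.2.2) ∨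
      IsUnit (2 * w.2.2 - w.2.1 * w.1)
    rw [mul_comm w.2.1 w.1]
    tauto

private theorem special (p : ℕ) (m : ℕ) (x : ZMod p) (a₁ : {a : ZMod (p ^ 2) // red p a = x})
    (hinj : ∀ a b : {a : ZMod (p ^ 2) // red p a = x}, sU (a : ZMod (p ^ 2)) m = sU (b : ZMod (p ^ 2)) m →
      a = b) :
    ∃ a₀ : {a : ZMod (p ^ 2) // red p a = x}, ∀ a, a ≠ a₀ → sU (a : ZMod (p ^ 2)) m ≠ 0 := by
  by_cases h : ∃ a : {a : ZMod (p ^ 2) // red p a = x}, sU (a : ZMod (p ^ 2)) m = 0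
  · obtain ⟨a₀, h0⟩ := h
    exact ⟨a₀, fun a ha h1 => ha (hinj a a₀ (by rw [h0, h1]))⟩
  · exact ⟨a₁, fun a _ h1 => h ⟨a, h1⟩⟩

theorem t_FIB : S_FIB := by
  intro hPER hVAR hHEN hTRV hFCO p _ hp D P hx hy hz heq Y hY1 hY2
  classical
  set m := p ^ 2 - 1 with hm
  have hp2 : p ≠ 2 := by omega
  obtain ⟨hH, -⟩ := hHEN p hp2 D P hz heq
  have hV := (hVAR hPER p hp).1
  haveI : Nontrivial {a : ZMod (p ^ 2) // red p a = P.1} := nontriv p P.1
  haveI : Nontrivial {b : ZMod (p ^ 2) // red p b = P.2.1} := nontriv p P.2.1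
  choose c hc hcu using fun (a : {a : ZMod (p ^ 2) // red p a = P.1})
    (b : {b : ZMod (p ^ 2) // red p b = P.2.1}) => hH a.1 b.1 a.2 b.2
  let pt : {a : ZMod (p ^ 2) // red p a = P.1} × {b : ZMod (p ^ 2) // red p b = P.2.1} →
    ZMod (p ^ 2) × ZMod (p ^ 2) × ZMod (p ^ 2) := fun q => (q.1.1, q.2.1, c q.1 q.2)
  have hptX : ∀ q, pt q ∈ Xs D := fun q => (hc q.1 q.2).2
  have hptr : ∀ q, red3 p (pt q) = P := by
    intro q
    have h1 := q.1.2
    have h2 := q.2.2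
    have h3 := (hc q.1 q.2).1
    change (red p q.1.1, red p q.2.1, red p (c q.1 q.2)) = P
    rw [h1, h2, h3]
  have hptinj : ∀ q q', pt q = pt q' → q = q' := by
    intro q q' h
    have h1 : q.1.1 = q'.1.1 := congrArg Prod.fst h
    have h2 : q.2.1 = q'.2.1 := congrArg (fun w => w.2.1) h
    exact Prod.ext (Subtype.ext h1) (Subtype.ext h2)
  have hrep : ∀ w ∈ Xs D, red3 p w = P → ∃ q, w = pt q := by
    intro w hw hr
    have h1 : red p w.1 = P.1 := congrArg Prod.fst hr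
    have h2 : red p w.2.1 = P.2.1 := congrArg (fun w => w.2.1) hr
    have h3 : red p w.2.2 = P.2.2 := congrArg (fun w => w.2.2) hr
    refine ⟨(⟨w.1, h1⟩, ⟨w.2.1, h2⟩), ?_⟩
    have h4 := hcu ⟨w.1, h1⟩ ⟨w.2.1, h2⟩ w.2.2 ⟨h3, hw⟩
    change w = (w.1, w.2.1, c ⟨w.1, h1⟩ ⟨w.2.1, h2⟩)
    rw [← h4]
  obtain ⟨a₁, -⟩ := exists_pair_ne {a : ZMod (p ^ 2) // red p a = P.1}
  obtain ⟨b₁, -⟩ := exists_pair_ne {b : ZMod (p ^ 2) // red p b = P.2.1}
  obtain ⟨a₀, ha₀⟩ := special p m P.1 a₁ (fun a b h => Subtype.ext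
    (hV a.1 b.1 (a.2.trans b.2.symm) (by rw [a.2]; exact hx) h))
  obtain ⟨b₀, hb₀⟩ := special p m P.2.1 b₁ (fun a b h => Subtype.ext
    (hV a.1 b.1 (a.2.trans b.2.symm) (by rw [a.2]; exact hy) h))
  -- iterates
  have hI1 : ∀ j : ℕ, ∀ w ∈ Y, rX^[m * j] w ∈ Y := by
    intro j
    induction j with
    | zero =>
      intro w hw
      simpa using hw
    | succ j ih =>
      intro w hw
      rw [Nat.mul_succ, Function.iterate_add_apply]
      exact ih _ (hY1 w hw)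
  have hI2 : ∀ j : ℕ, ∀ w ∈ Y, swp (rX^[m * j] (swp w)) ∈ Y := by
    intro j
    induction j with
    | zero =>
      intro w hw
      simpa [swp_swp] using hw
    | succ j ih =>
      intro w hw
      rw [Nat.mul_succ, Function.iterate_add_apply]
      have h1 := ih _ (hY2 w hw)
      rwa [swp_swp] at h1
  have hcol : ∀ a, a ≠ a₀ → ∀ b b', (a, b) ∈ {q | pt q ∈ Y} → (a, b') ∈ {q | pt q ∈ Y} := by
    intro a ha b b' hb
    obtain ⟨j, hj⟩ := hTRV hPER p hp D (pt (a, b)) (hptX _) (pt (a, b')) (hptX _)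
      ((hptr _).trans (hptr _).symm) rfl (by
        change (red p a.1) ^ 2 ≠ 4
        rw [a.2]
        exact hx) (by
        change red p (2 * c a b - a.1 * b.1) ≠ 0
        rw [map_sub, map_mul, map_mul, map_ofNat, a.2, b.2, (hc a b).1]
        exact hz) (ha₀ a ha)
    change pt (a, b') ∈ Y
    rw [← hj]
    exact hI1 j _ hb
  have hrow : ∀ b, b ≠ b₀ → ∀ a a', (a, b) ∈ {q | pt q ∈ Y} → (a', b) ∈ {q | pt q ∈ Y} := by
    intro b hb a a' hab
    have hsr : ∀ q, red3 p (swp (pt q)) = swp P := by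
      intro q
      have h1 := hptr q
      rw [← h1]
      rfl
    obtain ⟨j, hj⟩ := hTRV hPER p hp D (swp (pt (a, b))) (swp_mem (hptX _)) (swp (pt (a', b)))
      (swp_mem (hptX _)) ((hsr _).trans (hsr _).symm) rfl (by
        change (red p b.1) ^ 2 ≠ 4
        rw [b.2]
        exact hy) (by
        change red p (2 * c a b - b.1 * a.1) ≠ 0
        rw [map_sub, map_mul, map_mul, map_ofNat, a.2, b.2, (hc a b).1, mul_comm P.2.1]
        exact hz) (hb₀ b hb)
    change pt (a', b) ∈ Y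
    have h2 : swp (rX^[m * j] (swp (pt (a, b)))) = pt (a', b) := by
      rw [hj, swp_swp]
    rw [← h2]
    exact hI2 j _ hab
  rcases hFCO _ _ a₀ b₀ {q | pt q ∈ Y} hcol hrow with h | h | h | h
  · left
    intro w hw hr
    obtain ⟨q, rfl⟩ := hrep w hw hr
    exact h q
  · right
    left
    intro w hw hr
    obtain ⟨q, rfl⟩ := hrep w hw hr
    exact h q
  · right
    right
    refine ⟨pt (a₀, b₀), hptX _, hptr _, Or.inl ?_⟩
    intro w hw hr
    obtain ⟨q, rfl⟩ := hrep w hw hr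
    exact (h q).trans ⟨fun e => congrArg pt e, fun e => hptinj _ _ e⟩
  · right
    right
    refine ⟨pt (a₀, b₀), hptX _, hptr _, Or.inr ?_⟩
    intro w hw hr
    obtain ⟨q, rfl⟩ := hrep w hw hr
    exact (h q).trans ⟨fun e e' => e (hptinj _ _ e'), fun e e' => e (congrArg pt e')⟩

end Pool.Agent.J6H98.MK
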