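import Pool.Agent.J6H98.MK.Stm

/-!
# Project MK: the finite part (helper98)
-/

set_option autoImplicit false

open Polynomial

namespace Pool.Agent.J6H98.MK

/-- two step induction -/
theorem ind2 {Q : ℕ → Prop} (h0 : Q 0) (h1 : Q 1) (h : ∀ n, Q n → Q (n + 1) → Q (n + 2)) : ∀ n, Q n
  | 0 => h0
  | 1 => h1
  | n + 2 => h n (ind2 h0 h1 h n) (ind2 h0 h1 h (n + 1))

section poly

variable {R : Type} [CommRing R] (A B : R)

theorem pE_zero : pE A B 0 = 2 := rfl
theorem pE_one : pE A B 1 = C A * X + C B := rfl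
theorem pE_two (n : ℕ) : pE A B (n + 2) = (C A * X + C B) * pE A B (n + 1) - X * pE A B n := rfl
theorem pG_zero : pG A B 0 = 0 := rfl
theorem pG_one : pG A B 1 = 1 := rfl
theorem pG_two (n : ℕ) : pG A B (n + 2) = (C A * X + C B) * pG A B (n + 1) - X * pG A B n := rfl

theorem pE_eq (n : ℕ) : pE A B (n + 1) = (C A * X + C B) * pG A B (n + 1) - 2 * X * pG A B n := by
  induction n using ind2 with
  | h0 => rw [pE_one, pG_one, pG_zero]; ring
  | h1 => rw [pE_two, pE_one, pE_zero, pG_two, pG_one, pG_zero]; ring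
  | h n h1 h2 =>
    rw [pE_two, h1, h2, pG_two A B (n + 1), pG_two A B n]
    ring

theorem der (n : ℕ) : 2 * X * derivative (pE A B n) =
    (n : R[X]) * pE A B n + (n : R[X]) * ((C A * X - C B) * pG A B n) := by
  induction n using ind2 with
  | h0 =>
    have : (2 : R[X]) = C 2 := rfl
    rw [pE_zero, this, derivative_C]
    simp
  | h1 =>
    rw [pE_one, pG_one]
    simp only [derivative_add, derivative_mul, derivative_C, derivative_X, Nat.cast_one]
    ring
  | h n h1 h2 =>
    have h3 := pE_eq A B n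
    rw [pE_two]
    simp only [derivative_sub, derivative_mul, derivative_add, derivative_C, derivative_X]
    have e : 2 * X * (((0 * X + C A * 1 + 0) * pE A B (n + 1) +
        (C A * X + C B) * derivative (pE A B (n + 1))) -
        (1 * pE A B n + X * derivative (pE A B n))) =
        2 * X * C A * pE A B (n + 1) + (C A * X + C B) * (2 * X * derivative (pE A B (n + 1))) -
        2 * X * pE A B n - X * (2 * X * derivative (pE A B n)) := by ring
    rw [e, h1, h2, pG_two]
    push_cast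
    linear_combination (C A * X - C B) * h3

theorem ev (t u : R) (htu : t * u = 1) (n : ℕ) :
    (pE A B n).eval (t ^ 2) = t ^ n * sC (A * t + B * u) n := by
  induction n using ind2 with
  | h0 => rw [pE_zero]; simp [sC]
  | h1 =>
    rw [pE_one]
    simp only [eval_add, eval_mul, eval_C, eval_X, sC, pow_one]
    linear_combination -B * htu
  | h n h1 h2 =>
    rw [pE_two]
    simp only [eval_sub, eval_add, eval_mul, eval_C, eval_X]
    rw [h1, h2]
    show _ = t ^ (n + 2) * ((A * t + B * u) * sC (A * t + B * u) (n + 1) - sC (A * t + B * u) n)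
    linear_combination (-(t ^ (n + 1) * sC (A * t + B * u) (n + 1) * B)) * htu

theorem natDegree_pE (n : ℕ) : (pE A B n).natDegree ≤ n := by
  induction n using ind2 with
  | h0 =>
    rw [pE_zero]
    exact (natDegree_C (2 : R)).le
  | h1 =>
    rw [pE_one]
    exact natDegree_linear_le
  | h n h1 h2 =>
    rw [pE_two]
    refine (natDegree_sub_le _ _).trans (max_le ?_ ?_)
    · refine natDegree_mul_le.trans ?_
      have := natDegree_linear_le (a := A) (b := B)
      omega
    · refine natDegree_mul_le.trans ?_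
      have := natDegree_X_le (R := R)
      omega

end poly

theorem map_pE {R S : Type} [CommRing R] [CommRing S] (φ : R →+* S) (A B : R) (n : ℕ) :
    (pE A B n).map φ = pE (φ A) (φ B) n := by
  induction n using ind2 with
  | h0 => rw [pE_zero, pE_zero]; simp
  | h1 => rw [pE_one, pE_one]; simp
  | h n h1 h2 =>
    rw [pE_two, pE_two, ← h1, ← h2]
    simp

theorem map_pG {R S : Type} [CommRing R] [CommRing S] (φ : R →+* S) (A B : R) (n : ℕ) :
    (pG A B n).map φ = pG (φ A) (φ B) n := by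
  induction n using ind2 with
  | h0 => rw [pG_zero, pG_zero]; simp
  | h1 => rw [pG_one, pG_one]; simp
  | h n h1 h2 =>
    rw [pG_two, pG_two, ← h1, ← h2]
    simp

/-- the kernel of the reduction -/
theorem red_eq_zero (p : ℕ) [Fact p.Prime] (x : ZMod (p ^ 2)) : red p x = 0 ↔ (p : ZMod (p ^ 2)) * x = 0 := by
  have hp : p.Prime := Fact.out
  have : NeZero (p ^ 2) := ⟨pow_ne_zero 2 hp.ne_zero⟩
  obtain ⟨n, rfl⟩ := ZMod.natCast_zmod_surjective x
  rw [map_natCast, ZMod.natCast_eq_zero_iff, ← Nat.cast_mul, ZMod.natCast_eq_zero_iff, pow_two]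
  exact (Nat.mul_dvd_mul_iff_left hp.pos).symm

/-- the recursion for the coefficients of a power of a quadratic polynomial -/
theorem ode {F : Type} [Field F] (a b c : F) (m : ℕ) (hm : (2 * m + 1 : F) = 0) (V : F[X])
    (hV : V = (C a * X ^ 2 + C b * X + C c) ^ m) :
    2 * ((C a * X ^ 2 + C b * X + C c) * derivative V) +
      (C (2 * a) * X + C b) * V = 0 := by
  have hd : derivative (C a * X ^ 2 + C b * X + C c) = C (2 * a) * X + C b := by
    simp only [derivative_add, derivative_mul, derivative_C, derivative_X, derivative_X_pow]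
    simp only [map_mul, Nat.cast_ofNat]
    have : (C (2 : F) : F[X]) = 2 := rfl
    rw [this]
    ring
  rcases Nat.eq_zero_or_pos m with h0 | h0
  · subst h0
    simp at hm
  · obtain ⟨m', rfl⟩ : ∃ m', m = m' + 1 := ⟨m - 1, by omega⟩
    rw [hV, derivative_pow, hd]
    have hm2 : (2 * ((m' + 1 : ℕ) : F[X]) + 1) = 0 := by
      have h3 := congrArg (C : F → F[X]) hm
      have h4 : (C (2 : F) : F[X]) = 2 := rfl
      simp only [map_add, map_mul, map_one, map_zero, h4, Nat.cast_add, Nat.cast_one, map_natCast] at h3 ⊢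
      exact h3
    simp only [Nat.add_sub_cancel]
    have h2 : (C ((m' + 1 : ℕ) : F) : F[X]) = ((m' + 1 : ℕ) : F[X]) := by simp
    try rw [h2]
    rw [pow_succ]
    linear_combination ((C a * X ^ 2 + C b * X + C c) ^ m' * (C a * X ^ 2 + C b * X + C c) *
      (C (2 * a) * X + C b)) * hm2

theorem coeff_rec0 {F : Type} [Field F] (a b c : F) (m : ℕ) (hm : (2 * m + 1 : F) = 0) (V : F[X])
    (hV : V = (C a * X ^ 2 + C b * X + C c) ^ m) :
    b * V.coeff 0 + 2 * c * V.coeff 1 = 0 := by
  have h1 := ode a b c m hm V hV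
  have h2 := congrArg (fun f => coeff f 0) h1
  simp only [coeff_add, coeff_zero] at h2
  have h4 : (C (2 : F) : F[X]) = 2 := rfl
  rw [← h4, coeff_C_mul, mul_coeff_zero, mul_coeff_zero, coeff_derivative] at h2
  simp at h2
  linear_combination h2

theorem coeff_rec {F : Type} [Field F] (a b c : F) (m : ℕ) (hm : (2 * m + 1 : F) = 0) (V : F[X])
    (hV : V = (C a * X ^ 2 + C b * X + C c) ^ m) (n : ℕ) :
    2 * a * (n + 1) * V.coeff n + b * (2 * n + 3) * V.coeff (n + 1) +
      2 * c * (n + 2) * V.coeff (n + 2) = 0 := by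
  have h1 := ode a b c m hm V hV
  have h2 := congrArg (fun f => coeff f (n + 1)) h1
  simp only [coeff_add, coeff_zero] at h2
  have e1 : (2 * ((C a * X ^ 2 + C b * X + C c) * derivative V)).coeff (n + 1) =
      2 * (a * ((derivative V * X ^ 2).coeff (n + 1)) + b * (derivative V * X).coeff (n + 1) +
        c * (derivative V).coeff (n + 1)) := by
    have : (2 : F[X]) = C 2 := rfl
    rw [this, coeff_C_mul]
    congr 1
    rw [add_mul, add_mul, coeff_add, coeff_add, mul_assoc, mul_assoc, coeff_C_mul, coeff_C_mul,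
      coeff_C_mul, mul_comm (X ^ 2), mul_comm X]
  have e2 : ((C (2 * a) * X + C b) * V).coeff (n + 1) = 2 * a * V.coeff n + b * V.coeff (n + 1) := by
    rw [add_mul, coeff_add, mul_assoc, coeff_C_mul, coeff_C_mul, mul_comm X, coeff_mul_X]
  rw [e1, e2, coeff_mul_X, coeff_derivative, coeff_derivative] at h2
  have e3 : (derivative V * X ^ 2).coeff (n + 1) = n * V.coeff n := by
    rcases n with _ | n
    · rw [coeff_mul_X_pow']
      simp
    · rw [show n + 1 + 1 = n + 2 from rfl, coeff_mul_X_pow, coeff_derivative]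
      push_cast
      ring
  rw [e3] at h2
  push_cast at h2 ⊢
  linear_combination h2

theorem fin (hCHP : S_CHP) (hORT : S_ORT) (hALG : S_ALG) : S_FIN := by
  intro p _ hp ζ A B hζ hord hAB0 hAB1
  by_contra hcon
  push Not at hcon
  have hpp : p.Prime := Fact.out
  have hodd : p % 2 = 1 := by
    rcases hpp.eq_two_or_odd with h | h
    · omega
    · exact h
  obtain ⟨m, hm⟩ : ∃ m, p = 2 * m + 1 := ⟨p / 2, by omega⟩
  have hm2 : (p - 1) / 2 = m := by omega
  have hA : red p A ≠ 0 := left_ne_zero_of_mul hAB0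
  have hB : red p B ≠ 0 := right_ne_zero_of_mul hAB0
  -- the values
  have hval : ∀ i : ℕ, (pE A B p).eval (ζ ^ (2 * i)) = A * ζ ^ (2 * i) + B := by
    intro i
    have htu : ζ ^ i * ζ ^ ((p - 2) * i) = 1 := by
      rw [← pow_add, show i + (p - 2) * i = (p - 1) * i by
        obtain ⟨q, hq⟩ : ∃ q, p = q + 2 := ⟨p - 2, by omega⟩
        subst hq
        simp only [Nat.add_sub_cancel]
        have : q + 2 - 1 = q + 1 := by omega
        rw [this]; ring, pow_mul, hζ, one_pow]
    have h1 := ev A B (ζ ^ i) (ζ ^ ((p - 2) * i)) htu p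
    rw [hcon i] at h1
    have h2 : ζ ^ (2 * i) = (ζ ^ i) ^ 2 := by rw [← pow_mul, mul_comm]
    have h3 : (ζ ^ i) ^ p = ζ ^ i := by
      rw [← pow_mul, show i * p = (p - 1) * i + i by
        obtain ⟨q, hq⟩ : ∃ q, p = q + 1 := ⟨p - 1, by omega⟩
        subst hq
        simp only [Nat.add_sub_cancel]
        ring, pow_add, pow_mul, hζ, one_pow, one_mul]
    rw [h2, h1, h3]
    linear_combination B * htu
  have hort := hORT p (by omega) ζ A B (pE A B p) hζ hord (natDegree_pE A B p) hval
  rw [hm2] at hort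
  -- characteristic `p`
  obtain ⟨hE, hG⟩ := hCHP p (by omega) (red p A) (red p B) hA
  rw [hm2] at hG
  set a := red p A with ha
  set b := red p B with hb
  set V : (ZMod p)[X] := pG a b p with hVdef
  -- the derivative
  have hder : ∀ k, 1 ≤ k → k < p → 2 * (k : ZMod (p ^ 2)) * (pE A B p).coeff k =
      (p : ZMod (p ^ 2)) * ((C A * X - C B) * pG A B p).coeff k := by
    intro k hk1 hkp
    have h1 := congrArg (fun f => coeff f k) (der A B p)
    simp only [coeff_add] at h1
    obtain ⟨k', rfl⟩ : ∃ k', k = k' + 1 := ⟨k - 1, by omega⟩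
    have e1 : (2 * X * derivative (pE A B p)).coeff (k' + 1) =
        2 * (((k' + 1 : ℕ) : ZMod (p ^ 2)) * (pE A B p).coeff (k' + 1)) := by
      have : (2 : (ZMod (p ^ 2))[X]) = C 2 := rfl
      rw [this, mul_assoc, coeff_C_mul, mul_comm X, coeff_mul_X, coeff_derivative]
      push_cast
      ring
    have e2 : ∀ f : (ZMod (p ^ 2))[X], ((p : (ZMod (p ^ 2))[X]) * f).coeff (k' + 1) =
        (p : ZMod (p ^ 2)) * f.coeff (k' + 1) := by
      intro f
      rw [← C_eq_natCast, coeff_C_mul]
    have e3 : (p : ZMod (p ^ 2)) * (pE A B p).coeff (k' + 1) = 0 := by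
      rw [← red_eq_zero, ← coeff_map, map_pE, hE, coeff_add, coeff_C_mul, coeff_X_pow,
        if_neg (by omega), coeff_C, if_neg (by omega)]
      simp
    rw [e1, e2, e2, e3, zero_add] at h1
    rw [← h1]
    ring
  -- coefficients of the derivative modulo `p`
  let u : ℕ → ZMod p := fun k => a * V.coeff (k - 1) - b * V.coeff k
  have hu : ∀ k, 1 ≤ k → red p (((C A * X - C B) * pG A B p).coeff k) = u k := by
    intro k hk
    obtain ⟨k', rfl⟩ : ∃ k', k = k' + 1 := ⟨k - 1, by omega⟩
    rw [← coeff_map, Polynomial.map_mul, map_pG, Polynomial.map_sub, Polynomial.map_mul,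
      map_C, map_C, map_X, sub_mul, coeff_sub, mul_assoc, coeff_C_mul, coeff_C_mul, mul_comm X,
      coeff_mul_X]
    rfl
  have hcond : ∀ j, 2 ≤ j → j < m →
      (2 * (j : ZMod p) - 1) * u j + 2 * (j : ZMod p) * u (j + m) = 0 := by
    intro j hj1 hj2
    have h1 := hort j hj1 hj2
    have h2 := hder j (by omega) (by omega)
    have h3 := hder (j + m) (by omega) (by omega)
    have h4 : (p : ZMod (p ^ 2)) * (2 * ((j + m : ℕ) : ZMod (p ^ 2)) *
        ((C A * X - C B) * pG A B p).coeff j + 2 * (j : ZMod (p ^ 2)) *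
        ((C A * X - C B) * pG A B p).coeff (j + m)) = 0 := by
      linear_combination (-(2 * ((j + m : ℕ) : ZMod (p ^ 2)))) * h2 - 2 * (j : ZMod (p ^ 2)) * h3 +
        4 * (j : ZMod (p ^ 2)) * ((j + m : ℕ) : ZMod (p ^ 2)) * h1
    rw [← red_eq_zero, map_add, map_mul, map_mul, map_mul, map_mul, hu j (by omega),
      hu (j + m) (by omega), map_natCast, map_natCast, map_ofNat] at h4
    have h5 : 2 * ((j + m : ℕ) : ZMod p) = 2 * (j : ZMod p) - 1 := by
      have h6 : ((2 * m + 1 : ℕ) : ZMod p) = 0 := by rw [← hm]; exact ZMod.natCast_self p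
      push_cast at h6 ⊢
      linear_combination h6
    rw [h5] at h4
    exact h4
  -- the recursion
  have h2m : (2 * m + 1 : ZMod p) = 0 := by
    have h6 : ((2 * m + 1 : ℕ) : ZMod p) = 0 := by rw [← hm]; exact ZMod.natCast_self p
    push_cast at h6
    exact h6
  have hVQ : V = (C (a ^ 2) * X ^ 2 + C (2 * a * b - 4) * X + C (b ^ 2)) ^ m := by
    rw [hG]
    congr 1
    have h4 : (C (2 : ZMod p) : (ZMod p)[X]) = 2 := rfl
    have h5 : (C (4 : ZMod p) : (ZMod p)[X]) = 4 := rfl
    simp only [map_pow, map_sub, map_mul, h4, h5]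
    ring
  have hrec := coeff_rec (a ^ 2) (2 * a * b - 4) (b ^ 2) m h2m V hVQ
  have h2ne : (2 : ZMod p) ≠ 0 := by
    intro h
    have h6 : ((2 : ℕ) : ZMod p) = 0 := by exact_mod_cast h
    rw [ZMod.natCast_eq_zero_iff] at h6
    have := Nat.le_of_dvd (by norm_num) h6
    omega
  have hab1 : a * b ≠ 1 := hAB1
  have hv0 : V.coeff 0 ≠ 0 := by
    rw [hVQ, coeff_zero_eq_eval_zero]
    have h7 : eval 0 ((C (a ^ 2) * X ^ 2 + C (2 * a * b - 4) * X + C (b ^ 2)) ^ m) = (b ^ 2) ^ m := by
      simp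
    rw [h7]
    exact pow_ne_zero _ (pow_ne_zero _ hB)
  have hv1 : (a * b - 2) * V.coeff 0 + b ^ 2 * V.coeff 1 = 0 := by
    have h7 := coeff_rec0 (a ^ 2) (2 * a * b - 4) (b ^ 2) m h2m V hVQ
    have h8 : 2 * ((a * b - 2) * V.coeff 0 + b ^ 2 * V.coeff 1) = 0 := by linear_combination h7
    exact (mul_eq_zero.1 h8).resolve_left h2ne
  obtain ⟨r, hr⟩ : ∃ r, r = b / a := ⟨_, rfl⟩
  have har : a * r = b := by rw [hr]; field_simp
  have hr0 : r ≠ 0 := by rw [hr]; exact div_ne_zero hB hA
  obtain ⟨c, hc⟩ : ∃ c, c = (2 - a * b) / (a * b) := ⟨_, rfl⟩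
  have hcb : c * b ^ 2 = (2 - a * b) * r := by rw [hc, hr]; field_simp
  obtain ⟨w, hw⟩ : ∃ w, w = (V.coeff 0)⁻¹ := ⟨_, rfl⟩
  have hw0 : V.coeff 0 * w = 1 := by rw [hw]; exact mul_inv_cancel₀ hv0
  have hb2 : 2 * b ^ 2 ≠ 0 := mul_ne_zero h2ne (pow_ne_zero 2 hB)
  refine hALG p hp c (fun k => V.coeff k * r ^ k * w)
    (fun k => V.coeff (k + m) * r ^ k * w) ?_ ?_ ?_ ?_ ?_ ?_
  · intro h
    rw [hc, div_eq_one_iff_eq hAB0] at h
    apply hab1
    have : 2 * (a * b - 1) = 0 := by linear_combination -h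
    rcases mul_eq_zero.1 this with h7 | h7
    · exact absurd h7 h2ne
    · exact sub_eq_zero.1 h7
  · show V.coeff 0 * r ^ 0 * w = 1
    rw [pow_zero, mul_one, hw0]
  · show V.coeff 1 * r ^ 1 * w = c
    apply mul_left_cancel₀ (pow_ne_zero 2 hB)
    linear_combination (r * w) * hv1 - hcb + (2 - a * b) * r * hw0
  · intro k
    show ((k : ZMod p) + 2) * (V.coeff (k + 2) * r ^ (k + 2) * w) =
      (2 * (k : ZMod p) + 3) * c * (V.coeff (k + 1) * r ^ (k + 1) * w) -
        ((k : ZMod p) + 1) * (V.coeff k * r ^ k * w)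
    apply mul_left_cancel₀ hb2
    have h8 := hrec k
    linear_combination (r ^ (k + 2) * w) * h8 -
      2 * (2 * (k : ZMod p) + 3) * (V.coeff (k + 1) * r ^ (k + 1) * w) * hcb -
      2 * (k + 1) * V.coeff k * r ^ k * w * (a * r + b) * har
  · intro k
    show (2 * (k : ZMod p) + 3) * (V.coeff (k + 2 + m) * r ^ (k + 2) * w) =
      4 * ((k : ZMod p) + 1) * c * (V.coeff (k + 1 + m) * r ^ (k + 1) * w) -
        (2 * (k : ZMod p) + 1) * (V.coeff (k + m) * r ^ k * w)
    apply mul_left_cancel₀ (pow_ne_zero 2 hB)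
    have h8 := hrec (k + m)
    rw [show k + m + 1 = k + 1 + m by ring, show k + m + 2 = k + 2 + m by ring] at h8
    push_cast at h8
    linear_combination (r ^ (k + 2) * w) * h8 -
      (r ^ (k + 2) * w) * (a ^ 2 * V.coeff (k + m) + (2 * a * b - 4) * V.coeff (k + 1 + m) +
        b ^ 2 * V.coeff (k + 2 + m)) * h2m -
      4 * ((k : ZMod p) + 1) * (V.coeff (k + 1 + m) * r ^ (k + 1) * w) * hcb -
      (2 * (k : ZMod p) + 1) * V.coeff (k + m) * r ^ k * w * (a * r + b) * har
  · intro k hk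
    show (2 * (k : ZMod p) + 3) * (V.coeff (k + 1) * r ^ (k + 1) * w - V.coeff (k + 2) * r ^ (k + 2) * w) +
      2 * ((k : ZMod p) + 2) * (V.coeff (k + 1 + m) * r ^ (k + 1) * w -
        V.coeff (k + 2 + m) * r ^ (k + 2) * w) = 0
    rw [hm2] at hk
    have h8 := hcond (k + 2) (by omega) hk
    have e1 : u (k + 2) = a * V.coeff (k + 1) - b * V.coeff (k + 2) := rfl
    have e2 : u (k + 2 + m) = a * V.coeff (k + 1 + m) - b * V.coeff (k + 2 + m) := by
      show a * V.coeff (k + 2 + m - 1) - b * V.coeff (k + 2 + m) = _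
      rw [show k + 2 + m - 1 = k + 1 + m by omega]
    rw [e1, e2] at h8
    push_cast at h8
    apply mul_left_cancel₀ hA
    linear_combination (r ^ (k + 1) * w) * h8 -
      ((2 * (k : ZMod p) + 3) * V.coeff (k + 2) + 2 * ((k : ZMod p) + 2) * V.coeff (k + 2 + m)) *
        r ^ (k + 1) * w * har

end Pool.Agent.J6H98.MK
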