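import Pool.Agent.J6H98.MK.Stm3

/-!
# Project MK: the group of automorphisms (helper98)
-/

set_option autoImplicit false

namespace Pool.Agent.J6H98.MK

section gens

variable (R : Type) [CommRing R]

/-- the Vieta involution `s_x` -/
def sX : Equiv.Perm (R × R × R) where
  toFun w := (w.2.1 * w.2.2 - w.1, w.2.1, w.2.2)
  invFun w := (w.2.1 * w.2.2 - w.1, w.2.1, w.2.2)
  left_inv w := by simp
  right_inv w := by simp

/-- the Vieta involution `s_y` -/
def sY : Equiv.Perm (R × R × R) where
  toFun w := (w.1, w.1 * w.2.2 - w.2.1, w.2.2)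
  invFun w := (w.1, w.1 * w.2.2 - w.2.1, w.2.2)
  left_inv w := by simp
  right_inv w := by simp

/-- the Vieta involution `s_z` -/
def sZ : Equiv.Perm (R × R × R) where
  toFun w := (w.1, w.2.1, w.1 * w.2.1 - w.2.2)
  invFun w := (w.1, w.2.1, w.1 * w.2.1 - w.2.2)
  left_inv w := by simp
  right_inv w := by simp

/-- the transposition of the first two coordinates -/
def tXY : Equiv.Perm (R × R × R) where
  toFun w := (w.2.1, w.1, w.2.2)
  invFun w := (w.2.1, w.1, w.2.2)
  left_inv _ := rfl
  right_inv _ := rfl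

/-- the transposition of the last two coordinates -/
def tYZ : Equiv.Perm (R × R × R) where
  toFun w := (w.1, w.2.2, w.2.1)
  invFun w := (w.1, w.2.2, w.2.1)
  left_inv _ := rfl
  right_inv _ := rfl

/-- the sign change of the last two coordinates -/
def nX : Equiv.Perm (R × R × R) where
  toFun w := (w.1, -w.2.1, -w.2.2)
  invFun w := (w.1, -w.2.1, -w.2.2)
  left_inv w := by simp
  right_inv w := by simp

/-- the sign change of the first and the third coordinate -/
def nY : Equiv.Perm (R × R × R) where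
  toFun w := (-w.1, w.2.1, -w.2.2)
  invFun w := (-w.1, w.2.1, -w.2.2)
  left_inv w := by simp
  right_inv w := by simp

/-- the sign change of the first two coordinates -/
def nZ : Equiv.Perm (R × R × R) where
  toFun w := (-w.1, -w.2.1, w.2.2)
  invFun w := (-w.1, -w.2.1, w.2.2)
  left_inv w := by simp
  right_inv w := by simp

/-- The group generated by the Vieta involutions, the permutations of the coordinates (generated by
two transpositions) and the sign changes of two coordinates, acting on `R^3`. -/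
def AutX : Subgroup (Equiv.Perm (R × R × R)) :=
  Subgroup.closure {sX R, sY R, sZ R, tXY R, tYZ R, nX R, nY R, nZ R}

end gens

/-- a ring homomorphism on points -/
def map3 {R S : Type} [CommRing R] [CommRing S] (φ : R →+* S) (w : R × R × R) : S × S × S :=
  (φ w.1, φ w.2.1, φ w.2.2)

theorem red3_eq (p : ℕ) : red3 p = map3 (red p) := rfl

theorem autX_map {R S : Type} [CommRing R] [CommRing S] (φ : R →+* S) (g : Equiv.Perm (R × R × R))
    (hg : g ∈ AutX R) : ∃ g' ∈ AutX S, ∀ w, map3 φ (g w) = g' (map3 φ w) := by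
  unfold AutX at hg
  induction hg using Subgroup.closure_induction with
  | mem x hx =>
    simp only [Set.mem_insert_iff, Set.mem_singleton_iff] at hx
    rcases hx with rfl | rfl | rfl | rfl | rfl | rfl | rfl | rfl
    · exact ⟨sX S, Subgroup.subset_closure (by simp), fun w => by simp [map3, sX]⟩
    · exact ⟨sY S, Subgroup.subset_closure (by simp), fun w => by simp [map3, sY]⟩
    · exact ⟨sZ S, Subgroup.subset_closure (by simp), fun w => by simp [map3, sZ]⟩
    · exact ⟨tXY S, Subgroup.subset_closure (by simp), fun w => by simp [map3, tXY]⟩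
    · exact ⟨tYZ S, Subgroup.subset_closure (by simp), fun w => by simp [map3, tYZ]⟩
    · exact ⟨nX S, Subgroup.subset_closure (by simp), fun w => by simp [map3, nX]⟩
    · exact ⟨nY S, Subgroup.subset_closure (by simp), fun w => by simp [map3, nY]⟩
    · exact ⟨nZ S, Subgroup.subset_closure (by simp), fun w => by simp [map3, nZ]⟩
  | one => exact ⟨1, one_mem _, fun w => rfl⟩
  | mul x y _ _ hx hy =>
    obtain ⟨x', hx1, hx2⟩ := hx
    obtain ⟨y', hy1, hy2⟩ := hy
    refine ⟨x' * y', mul_mem hx1 hy1, fun w => ?_⟩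
    rw [Equiv.Perm.mul_apply, Equiv.Perm.mul_apply, hx2, hy2]
  | inv x _ hx =>
    obtain ⟨x', hx1, hx2⟩ := hx
    refine ⟨x'⁻¹, inv_mem hx1, fun w => ?_⟩
    have e : x (x⁻¹ w) = w := x.apply_symm_apply w
    rw [Equiv.Perm.eq_inv_iff_eq, ← hx2, e]

theorem autX_lift {R S : Type} [CommRing R] [CommRing S] (φ : R →+* S) (g' : Equiv.Perm (S × S × S))
    (hg : g' ∈ AutX S) : ∃ g ∈ AutX R, ∀ w, map3 φ (g w) = g' (map3 φ w) := by
  unfold AutX at hg
  induction hg using Subgroup.closure_induction with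
  | mem x hx =>
    simp only [Set.mem_insert_iff, Set.mem_singleton_iff] at hx
    rcases hx with rfl | rfl | rfl | rfl | rfl | rfl | rfl | rfl
    · exact ⟨sX R, Subgroup.subset_closure (by simp), fun w => by simp [map3, sX]⟩
    · exact ⟨sY R, Subgroup.subset_closure (by simp), fun w => by simp [map3, sY]⟩
    · exact ⟨sZ R, Subgroup.subset_closure (by simp), fun w => by simp [map3, sZ]⟩
    · exact ⟨tXY R, Subgroup.subset_closure (by simp), fun w => by simp [map3, tXY]⟩
    · exact ⟨tYZ R, Subgroup.subset_closure (by simp), fun w => by simp [map3, tYZ]⟩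
    · exact ⟨nX R, Subgroup.subset_closure (by simp), fun w => by simp [map3, nX]⟩
    · exact ⟨nY R, Subgroup.subset_closure (by simp), fun w => by simp [map3, nY]⟩
    · exact ⟨nZ R, Subgroup.subset_closure (by simp), fun w => by simp [map3, nZ]⟩
  | one => exact ⟨1, one_mem _, fun w => rfl⟩
  | mul x y _ _ hx hy =>
    obtain ⟨x', hx1, hx2⟩ := hx
    obtain ⟨y', hy1, hy2⟩ := hy
    refine ⟨x' * y', mul_mem hx1 hy1, fun w => ?_⟩
    rw [Equiv.Perm.mul_apply, Equiv.Perm.mul_apply, hx2, hy2]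
  | inv x _ hx =>
    obtain ⟨x', hx1, hx2⟩ := hx
    refine ⟨x'⁻¹, inv_mem hx1, fun w => ?_⟩
    have e : x' (x'⁻¹ w) = w := x'.apply_symm_apply w
    rw [Equiv.Perm.eq_inv_iff_eq, ← hx2, e]

theorem red_surj (p : ℕ) : Function.Surjective (red p) := ZMod.castHom_surjective _

theorem isUnit_iff_red (p : ℕ) [Fact p.Prime] (x : ZMod (p ^ 2)) : IsUnit x ↔ red p x ≠ 0 := by
  have hp : p.Prime := Fact.out
  have : NeZero (p ^ 2) := ⟨pow_ne_zero 2 hp.ne_zero⟩
  obtain ⟨n, rfl⟩ := ZMod.natCast_zmod_surjective x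
  rw [map_natCast, Ne, ZMod.natCast_eq_zero_iff, ZMod.isUnit_iff_coprime,
    Nat.coprime_pow_right_iff (by norm_num), Nat.coprime_comm, hp.coprime_iff_not_dvd]

/-- the points of `Xs` through the reduction -/
theorem mem_Xs (p : ℕ) [Fact p.Prime] (D : ZMod (p ^ 2)) (w : ZMod (p ^ 2) × ZMod (p ^ 2) × ZMod (p ^ 2)) :
    w ∈ Xs D ↔ w.1 ^ 2 + w.2.1 ^ 2 + w.2.2 ^ 2 = w.1 * w.2.1 * w.2.2 + D ∧
      ¬ (2 * red p w.1 = red p w.2.1 * red p w.2.2 ∧ 2 * red p w.2.1 = red p w.1 * red p w.2.2 ∧
        2 * red p w.2.2 = red p w.1 * red p w.2.1) := by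
  unfold Xs
  simp only [Set.mem_ofPred_eq, isUnit_iff_red, map_sub, map_mul, map_ofNat, ne_eq, sub_eq_zero]
  tauto

theorem autX_Xs (p : ℕ) [Fact p.Prime] (D : ZMod (p ^ 2))
    (g : Equiv.Perm (ZMod (p ^ 2) × ZMod (p ^ 2) × ZMod (p ^ 2))) (hg : g ∈ AutX (ZMod (p ^ 2))) :
    ∀ w, w ∈ Xs D ↔ g w ∈ Xs D := by
  unfold AutX at hg
  induction hg using Subgroup.closure_induction with
  | mem g hg =>
    have key : ∀ g : Equiv.Perm (ZMod (p ^ 2) × ZMod (p ^ 2) × ZMod (p ^ 2)), (∀ w, g (g w) = w) →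
        (∀ w, w ∈ Xs D → g w ∈ Xs D) → ∀ w, w ∈ Xs D ↔ g w ∈ Xs D := by
      intro g h1 h2 w
      exact ⟨h2 w, fun h => by rw [← h1 w]; exact h2 _ h⟩
    simp only [Set.mem_insert_iff, Set.mem_singleton_iff] at hg
    rcases hg with rfl | rfl | rfl | rfl | rfl | rfl | rfl | rfl
    · refine key _ (fun w => by simp [sX]) fun w hw => ?_
      rw [mem_Xs] at hw ⊢
      obtain ⟨h1, h2⟩ := hw
      simp only [sX, Equiv.coe_fn_mk, map_sub, map_mul]
      refine ⟨by linear_combination h1, fun ⟨h3, h4, h5⟩ => h2 ⟨?_, ?_, ?_⟩⟩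
      · linear_combination -h3
      · linear_combination h4 + red p w.2.2 * h3
      · linear_combination h5 + red p w.2.1 * h3
    · refine key _ (fun w => by simp [sY]) fun w hw => ?_
      rw [mem_Xs] at hw ⊢
      obtain ⟨h1, h2⟩ := hw
      simp only [sY, Equiv.coe_fn_mk, map_sub, map_mul]
      refine ⟨by linear_combination h1, fun ⟨h3, h4, h5⟩ => h2 ⟨?_, ?_, ?_⟩⟩
      · linear_combination h3 + red p w.2.2 * h4
      · linear_combination -h4
      · linear_combination h5 + red p w.1 * h4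
    · refine key _ (fun w => by simp [sZ]) fun w hw => ?_
      rw [mem_Xs] at hw ⊢
      obtain ⟨h1, h2⟩ := hw
      simp only [sZ, Equiv.coe_fn_mk, map_sub, map_mul]
      refine ⟨by linear_combination h1, fun ⟨h3, h4, h5⟩ => h2 ⟨?_, ?_, ?_⟩⟩
      · linear_combination h3 + red p w.2.1 * h5
      · linear_combination h4 + red p w.1 * h5
      · linear_combination -h5
    · refine key _ (fun w => rfl) fun w hw => ?_
      rw [mem_Xs] at hw ⊢
      obtain ⟨h1, h2⟩ := hw
      simp only [tXY, Equiv.coe_fn_mk]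
      refine ⟨by linear_combination h1, fun ⟨h3, h4, h5⟩ => h2 ⟨?_, ?_, ?_⟩⟩
      · linear_combination h4
      · linear_combination h3
      · linear_combination h5
    · refine key _ (fun w => rfl) fun w hw => ?_
      rw [mem_Xs] at hw ⊢
      obtain ⟨h1, h2⟩ := hw
      simp only [tYZ, Equiv.coe_fn_mk]
      refine ⟨by linear_combination h1, fun ⟨h3, h4, h5⟩ => h2 ⟨?_, ?_, ?_⟩⟩
      · linear_combination h3
      · linear_combination h5
      · linear_combination h4
    · refine key _ (fun w => by simp [nX]) fun w hw => ?_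
      rw [mem_Xs] at hw ⊢
      obtain ⟨h1, h2⟩ := hw
      simp only [nX, Equiv.coe_fn_mk, map_neg]
      refine ⟨by linear_combination h1, fun ⟨h3, h4, h5⟩ => h2 ⟨?_, ?_, ?_⟩⟩
      · linear_combination h3
      · linear_combination -h4
      · linear_combination -h5
    · refine key _ (fun w => by simp [nY]) fun w hw => ?_
      rw [mem_Xs] at hw ⊢
      obtain ⟨h1, h2⟩ := hw
      simp only [nY, Equiv.coe_fn_mk, map_neg]
      refine ⟨by linear_combination h1, fun ⟨h3, h4, h5⟩ => h2 ⟨?_, ?_, ?_⟩⟩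
      · linear_combination -h3
      · linear_combination h4
      · linear_combination -h5
    · refine key _ (fun w => by simp [nZ]) fun w hw => ?_
      rw [mem_Xs] at hw ⊢
      obtain ⟨h1, h2⟩ := hw
      simp only [nZ, Equiv.coe_fn_mk, map_neg]
      refine ⟨by linear_combination h1, fun ⟨h3, h4, h5⟩ => h2 ⟨?_, ?_, ?_⟩⟩
      · linear_combination -h3
      · linear_combination -h4
      · linear_combination h5
  | one => exact fun w => Iff.rfl
  | mul x y _ _ hx hy =>
    intro w
    rw [Equiv.Perm.mul_apply]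
    exact (hy w).trans (hx _)
  | inv x _ hx =>
    intro w
    have := hx (x⁻¹ w)
    have e : x (x⁻¹ w) = w := x.apply_symm_apply w
    rw [e] at this
    exact this.symm

/-- the rotation is in the group -/
theorem rX_mem (R : Type) [CommRing R] : ∃ g ∈ AutX R, ∀ w, g w = rX w :=
  ⟨tYZ R * sY R, mul_mem (Subgroup.subset_closure (by simp)) (Subgroup.subset_closure (by simp)),
    fun _ => rfl⟩

theorem rX_iter_mem (R : Type) [CommRing R] (n : ℕ) : ∃ g ∈ AutX R, ∀ w, g w = rX^[n] w := by
  induction n with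
  | zero => exact ⟨1, one_mem _, fun w => rfl⟩
  | succ n ih =>
    obtain ⟨g, hg1, hg2⟩ := ih
    obtain ⟨r, hr1, hr2⟩ := rX_mem R
    refine ⟨g * r, mul_mem hg1 hr1, fun w => ?_⟩
    rw [Equiv.Perm.mul_apply, hr2, hg2, Function.iterate_succ_apply]

theorem swp_mem (R : Type) [CommRing R] : ∃ g ∈ AutX R, ∀ w, g w = swp w :=
  ⟨tXY R, Subgroup.subset_closure (by simp), fun _ => rfl⟩

theorem rX_iter {R : Type} [CommRing R] (w : R × R × R) (n : ℕ) :
    rX^[n] w = (w.1, sS w.1 w.2.1 w.2.2 n, sS w.1 w.2.1 w.2.2 (n + 1)) := by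
  induction n with
  | zero => rfl
  | succ n ih =>
    rw [Function.iterate_succ_apply', ih]
    rfl

theorem sS_eq {R : Type} [CommRing R] (x a b : R) (n : ℕ) :
    sS x a b n = sU x n * b - (x * sU x n - sU x (n + 1)) * a ∧
    sS x a b (n + 1) = sU x (n + 1) * b - sU x n * a := by
  induction n with
  | zero => simp [sS, sU]
  | succ n ih =>
    obtain ⟨h1, h2⟩ := ih
    have e1 : sS x a b (n + 1 + 1) = x * sS x a b (n + 1) - sS x a b n := rfl
    have e2 : sU x (n + 1 + 1) = x * sU x (n + 1) - sU x n := rfl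
    refine ⟨?_, ?_⟩
    · rw [h2, e2]; ring
    · rw [e1, h2, h1, e2]; ring

theorem sU_det {R : Type} [CommRing R] (x : R) (n : ℕ) :
    sU x (n + 1) ^ 2 - x * sU x (n + 1) * sU x n + sU x n ^ 2 = 1 := by
  induction n with
  | zero => simp [sU]
  | succ n ih =>
    have e2 : sU x (n + 1 + 1) = x * sU x (n + 1) - sU x n := rfl
    rw [e2]
    linear_combination ih

theorem map_sU {R S : Type} [CommRing R] [CommRing S] (φ : R →+* S) (x : R) (n : ℕ) :
    φ (sU x n) = sU (φ x) n ∧ φ (sU x (n + 1)) = sU (φ x) (n + 1) := by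
  induction n with
  | zero => simp [sU]
  | succ n ih =>
    refine ⟨ih.2, ?_⟩
    have e2 : sU x (n + 1 + 1) = x * sU x (n + 1) - sU x n := rfl
    have e3 : sU (φ x) (n + 1 + 1) = φ x * sU (φ x) (n + 1) - sU (φ x) n := rfl
    rw [e2, e3, map_sub, map_mul, ih.1, ih.2]

theorem map_sS {R S : Type} [CommRing R] [CommRing S] (φ : R →+* S) (x a b : R) (n : ℕ) :
    φ (sS x a b n) = sS (φ x) (φ a) (φ b) n := by
  rw [(sS_eq x a b n).1, (sS_eq (φ x) (φ a) (φ b) n).1, map_sub, map_mul, map_mul, map_sub, map_mul,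
    (map_sU φ x n).1, (map_sU φ x n).2]

end Pool.Agent.J6H98.MK
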