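import Pool.Agent.J6H98.MK.Grp
import Pool.Agent.J6H98.MK.FIN

/-!
# Project MK: the main theorem (helper98)
-/

set_option autoImplicit false

namespace Pool.Agent.J6H98.MK

section main

variable (p : ℕ) [Fact p.Prime]

/-- a special point: fixed by the rotations which fix its reduction -/
theorem special_coord (hPER : S_PER) (hVAR : S_VAR) (hCFX : S_CFX) (hp : 5 ≤ p) (D : ZMod (p ^ 2))
    (hD4 : red p D ≠ 4) (hD : ∀ a : ZMod p, a ^ 2 = red p D → a = 0)
    (u : ZMod (p ^ 2) × ZMod (p ^ 2) × ZMod (p ^ 2)) (hu : u ∈ Xs D)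
    (hfix : ∀ n, red3 p (rX^[n] u) = red3 p u → rX^[n] u = u) :
    sC u.1 p = u.1 := by
  have hpp : p.Prime := Fact.out
  obtain ⟨x, a, b⟩ := u
  have hu' := (mem_Xs p D (x, a, b)).1 hu
  obtain ⟨heq, hgr⟩ := hu'
  simp only at heq hgr
  have heq' : red p x ^ 2 + red p a ^ 2 + red p b ^ 2 = red p x * red p a * red p b + red p D := by
    have := congrArg (red p) heq
    simpa using this
  -- fixed points of the rotation `rX^[n]`
  have hfix' : ∀ n, sU (red p x) n = 0 → sU (red p x) (n + 1) = 1 →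
      (sU x (n + 1) - 1) * a + sU x n * (b - x * a) = 0 ∧ (sU x (n + 1) - 1) * b - sU x n * a = 0 := by
    intro n h1 h2
    have h3 : red3 p (rX^[n] (x, a, b)) = red3 p (x, a, b) := by
      rw [rX_iter]
      show (red p x, red p (sS x a b n), red p (sS x a b (n + 1))) = (red p x, red p a, red p b)
      rw [map_sS, map_sS, (sS_eq (red p x) (red p a) (red p b) n).1,
        (sS_eq (red p x) (red p a) (red p b) n).2, h1, h2]
      simp
    have h4 := hfix n h3
    rw [rX_iter] at h4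
    have h5 : sS x a b n = a := congrArg (fun w => w.2.1) h4
    have h6 : sS x a b (n + 1) = b := congrArg (fun w => w.2.2) h4
    rw [(sS_eq x a b n).1] at h5
    rw [(sS_eq x a b n).2] at h6
    constructor
    · linear_combination h5
    · linear_combination h6
  by_cases hx4 : red p x ^ 2 = 4
  · -- parabolic: impossible
    exfalso
    obtain ⟨h1, h2⟩ := (hPER p (by omega) (red p x)).2 hx4
    obtain ⟨h3, h4⟩ := hfix' _ h1 h2
    have h5 : sU x (2 * p) * (b ^ 2 - x * a * b + a ^ 2) = 0 := by linear_combination b * h3 - a * h4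
    have h6 : IsUnit (b ^ 2 - x * a * b + a ^ 2) := by
      rw [isUnit_iff_red]
      intro h7
      apply hD4
      rw [map_add, map_sub, map_mul, map_mul, map_pow, map_pow] at h7
      linear_combination hx4 - heq' + h7
    exact (hVAR hPER p hp).2 x hx4 ((IsUnit.mul_left_eq_zero h6).1 h5)
  · obtain ⟨h1, h2⟩ := (hPER p (by omega) (red p x)).1 hx4
    have hp2 : p ^ 2 - 1 + 1 = p ^ 2 := Nat.sub_add_cancel (Nat.one_le_pow _ _ hpp.pos)
    have h2 : sU (red p x) (p ^ 2 - 1 + 1) = 1 := (congrArg (sU (red p x)) hp2).trans h2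
    obtain ⟨h3, h4⟩ := hfix' _ h1 h2
    set U := sU x (p ^ 2 - 1) with hU
    set V := sU x (p ^ 2 - 1 + 1) with hV
    have hU0 : red p U = 0 := by rw [hU, (map_sU (red p) x _).1, h1]
    have hV0 : red p (V - 1) = 0 := by rw [map_sub, map_one, hV, (map_sU (red p) x _).2, h2, sub_self]
    -- products of multiples of `p` vanish
    have hprod : ∀ s t : ZMod (p ^ 2), red p s = 0 → red p t = 0 → s * t = 0 := by
      intro s t hs ht
      have : NeZero (p ^ 2) := ⟨pow_ne_zero 2 hpp.ne_zero⟩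
      obtain ⟨n, rfl⟩ := ZMod.natCast_zmod_surjective s
      obtain ⟨k, rfl⟩ := ZMod.natCast_zmod_surjective t
      rw [map_natCast, ZMod.natCast_eq_zero_iff] at hs ht
      rw [← Nat.cast_mul, ZMod.natCast_eq_zero_iff, pow_two]
      exact Nat.mul_dvd_mul hs ht
    have hdet := sU_det x (p ^ 2 - 1)
    rw [← hU, ← hV] at hdet
    have hVV := hprod _ _ hV0 hV0
    have hUU := hprod _ _ hU0 hU0
    have hUV := hprod _ _ hU0 hV0
    have h2V : 2 * (V - 1) = x * U := by linear_combination hdet - hVV - hUU + x * hUV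
    have h2ne : (2 : ZMod p) ≠ 0 := by
      intro h
      have h6 : ((2 : ℕ) : ZMod p) = 0 := by exact_mod_cast h
      rw [ZMod.natCast_eq_zero_iff] at h6
      have := Nat.le_of_dvd (by norm_num) h6
      omega
    have h2u : IsUnit (2 : ZMod (p ^ 2)) := by
      rw [isUnit_iff_red, map_ofNat]
      exact h2ne
    have e1 : U * (2 * b - x * a) = 0 := by linear_combination 2 * h3 - a * h2V
    have e2 : U * (x * b - 2 * a) = 0 := by linear_combination 2 * h4 - b * h2V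
    have hUzero : U = 0 := by
      by_cases hb1 : IsUnit (2 * b - x * a)
      · exact (IsUnit.mul_left_eq_zero hb1).1 e1
      · by_cases hb2 : IsUnit (x * b - 2 * a)
        · exact (IsUnit.mul_left_eq_zero hb2).1 e2
        · exfalso
          rw [isUnit_iff_red, not_not, map_sub, map_mul, map_mul, map_ofNat] at hb1 hb2
          have ha : red p a = 0 := by
            have : (red p x ^ 2 - 4) * red p a = 0 := by linear_combination 2 * hb2 - red p x * hb1
            rcases mul_eq_zero.1 this with h | h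
            · exact absurd (sub_eq_zero.1 h) hx4
            · exact h
          have hb : red p b = 0 := by
            rw [ha, mul_zero, sub_zero] at hb1
            exact (mul_eq_zero.1 hb1).resolve_left h2ne
          have hx0 : red p x = 0 := hD _ (by rw [ha, hb] at heq'; linear_combination heq')
          exact hgr ⟨by rw [hx0, ha]; ring, by rw [hx0, ha]; ring, by rw [hx0, hb]; ring⟩
    have hVone : V = 1 := by
      rw [hUzero, mul_zero] at h2V
      exact sub_eq_zero.1 ((IsUnit.mul_right_eq_zero h2u).1 h2V)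
    exact (hCFX p (by omega)).2 x hUzero ((congrArg (sU x) hp2).symm.trans hVone)

/-- the orbit of a point -/
abbrev orb (v : ZMod (p ^ 2) × ZMod (p ^ 2) × ZMod (p ^ 2)) :
    Set (ZMod (p ^ 2) × ZMod (p ^ 2) × ZMod (p ^ 2)) := MulAction.orbit (AutX (ZMod (p ^ 2))) v

omit [Fact p.Prime] in
theorem orb_iff (v : ZMod (p ^ 2) × ZMod (p ^ 2) × ZMod (p ^ 2))
    (g : Equiv.Perm (ZMod (p ^ 2) × ZMod (p ^ 2) × ZMod (p ^ 2))) (hg : g ∈ AutX (ZMod (p ^ 2)))
    (u : ZMod (p ^ 2) × ZMod (p ^ 2) × ZMod (p ^ 2)) : u ∈ orb p v ↔ g u ∈ orb p v := by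
  have h1 : g u = (⟨g, hg⟩ : AutX (ZMod (p ^ 2))) • u := rfl
  rw [h1]
  constructor
  · rintro ⟨h, rfl⟩
    exact ⟨⟨g, hg⟩ * h, mul_smul _ _ _⟩
  · rintro ⟨h, hh⟩
    refine ⟨(⟨g, hg⟩ : AutX (ZMod (p ^ 2)))⁻¹ * h, ?_⟩
    have hh' : h • v = (⟨g, hg⟩ : AutX (ZMod (p ^ 2))) • u := hh
    show ((⟨g, hg⟩ : AutX (ZMod (p ^ 2)))⁻¹ * h) • v = u
    rw [mul_smul, hh', inv_smul_smul]

omit [Fact p.Prime] in
theorem orb_trans (v u u' : ZMod (p ^ 2) × ZMod (p ^ 2) × ZMod (p ^ 2)) (hu : u ∈ orb p v)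
    (hu' : u' ∈ orb p v) : ∃ g ∈ AutX (ZMod (p ^ 2)), g u = u' := by
  obtain ⟨g, rfl⟩ := hu
  obtain ⟨g', rfl⟩ := hu'
  refine ⟨(g' * g⁻¹ : AutX (ZMod (p ^ 2))), (g' * g⁻¹ : AutX (ZMod (p ^ 2))).2, ?_⟩
  show (g' * g⁻¹ : AutX (ZMod (p ^ 2))) • (g • v) = g' • v
  rw [smul_smul, inv_mul_cancel_right]

/-- transport of the fibres -/
theorem transport (D : ZMod (p ^ 2)) (v : ZMod (p ^ 2) × ZMod (p ^ 2) × ZMod (p ^ 2))
    (y y' : ZMod (p ^ 2) × ZMod (p ^ 2) × ZMod (p ^ 2)) (hy : y ∈ orb p v) (hy' : y' ∈ orb p v) :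
    ∃ g : Equiv.Perm (ZMod (p ^ 2) × ZMod (p ^ 2) × ZMod (p ^ 2)), g ∈ AutX (ZMod (p ^ 2)) ∧
      (∀ u, u ∈ Xs D ↔ g u ∈ Xs D) ∧ (∀ u, u ∈ orb p v ↔ g u ∈ orb p v) ∧
      (∀ u, red3 p u = red3 p y ↔ red3 p (g u) = red3 p y') := by
  obtain ⟨g, hg, hgy⟩ := orb_trans p v y y' hy hy'
  obtain ⟨g', -, hg'⟩ := autX_map (red p) g hg
  refine ⟨g, hg, autX_Xs p D g hg, orb_iff p v g hg, fun u => ?_⟩
  rw [← hgy, red3_eq, hg', hg']
  exact g'.injective.eq_iff.symm

theorem main (hPER : S_PER) (hVAR : S_VAR) (hCFX : S_CFX) (hLFT : S_LFT) (hFIN : S_FIN)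
    (hHEN : S_HEN) (hTRV : S_TRV) (hFCO : S_FCO) (hFIB : S_FIB) (hGPT : S_GPT)
    (hp : 13 ≤ p) (D : ZMod (p ^ 2))
    (hD4 : red p D ≠ 4) (hD : ∀ a : ZMod p, a ^ 2 = red p D → a = 0)
    (v : ZMod (p ^ 2) × ZMod (p ^ 2) × ZMod (p ^ 2)) (hv : v ∈ Xs D)
    (g : ZMod p) (hg : orderOf g = p - 1)
    (w : ZMod (p ^ 2) × ZMod (p ^ 2) × ZMod (p ^ 2)) (hw : w ∈ orb p v)
    (hwg : red p w.1 = g + g⁻¹) :
    (∀ u ∈ Xs D, red3 p u ∈ red3 p '' orb p v → u ∈ orb p v) ∧
      Nat.card (orb p v) = p ^ 2 * (red3 p '' orb p v).ncard := by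
  classical
  have hpp : p.Prime := Fact.out
  have : NeZero (p ^ 2) := ⟨pow_ne_zero 2 hpp.ne_zero⟩
  have hYX : ∀ u ∈ orb p v, u ∈ Xs D := by
    rintro u ⟨h, rfl⟩
    exact (autX_Xs p D h.1 h.2 v).1 hv
  -- the primitive root
  have hg0 : g ≠ 0 := by
    intro h
    rw [h, orderOf_eq_zero_iff'.2 (fun n hn => by rw [zero_pow hn.ne']; exact zero_ne_one)] at hg
    omega
  have hgord : ∀ n, g ^ n = 1 → 0 < n → 12 ≤ n := by
    intro n h1 h2
    have := Nat.le_of_dvd h2 (orderOf_dvd_of_pow_eq_one h1)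
    omega
  have hgi : g * g⁻¹ = 1 := mul_inv_cancel₀ hg0
  have hx4 : (g + g⁻¹) ^ 2 ≠ 4 := by
    intro h
    have h1 : (g - g⁻¹) ^ 2 = 0 := by linear_combination h - 4 * hgi
    have h2 : g - g⁻¹ = 0 := pow_eq_zero_iff (two_ne_zero) |>.1 h1
    have h3 : g ^ 2 = 1 := by linear_combination g * h2 + hgi
    have := hgord 2 h3 (by norm_num)
    omega
  have hxD : (g + g⁻¹) ^ 2 ≠ red p D := by
    intro h
    have h1 := hD _ h
    have h3 : g ^ 4 = 1 := by
      have : g ^ 2 = -1 := by linear_combination g * h1 - hgi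
      calc g ^ 4 = (g ^ 2) ^ 2 := by ring
        _ = 1 := by rw [this]; ring
    have := hgord 4 h3 (by norm_num)
    omega
  -- the equation modulo `p`
  have hsurf : ∀ u ∈ Xs D, red p u.1 ^ 2 + red p u.2.1 ^ 2 + red p u.2.2 ^ 2 =
      red p u.1 * red p u.2.1 * red p u.2.2 + red p D := by
    intro u hu
    have := congrArg (red p) ((mem_Xs p D u).1 hu).1
    simpa using this
  -- the good point
  have hQ : red p w.2.1 ^ 2 - (g + g⁻¹) * red p w.2.1 * red p w.2.2 + red p w.2.2 ^ 2 ≠ 0 := by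
    intro h
    apply hxD
    have h1 := hsurf w (hYX w hw)
    rw [hwg] at h1
    linear_combination h1 - h
  obtain ⟨i, hi1, hi2⟩ := hGPT p hp g (red p w.2.1) (red p w.2.2) hg hQ
  have hrY : ∀ n, ∀ u ∈ orb p v, rX^[n] u ∈ orb p v := by
    intro n u hu
    obtain ⟨r, hr1, hr2⟩ := rX_iter_mem (ZMod (p ^ 2)) n
    rw [← hr2]
    exact (orb_iff p v r hr1 u).1 hu
  have hsY : ∀ u ∈ orb p v, swp u ∈ orb p v := by
    intro u hu
    obtain ⟨r, hr1, hr2⟩ := swp_mem (ZMod (p ^ 2))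
    rw [← hr2]
    exact (orb_iff p v r hr1 u).1 hu
  obtain ⟨w0, hw0⟩ : ∃ w0, w0 = rX^[i] w := ⟨_, rfl⟩
  have hw0Y : w0 ∈ orb p v := by rw [hw0]; exact hrY i w hw
  have hr0 : red3 p w0 = (g + g⁻¹, sS (g + g⁻¹) (red p w.2.1) (red p w.2.2) i,
      sS (g + g⁻¹) (red p w.2.1) (red p w.2.2) (i + 1)) := by
    rw [hw0, rX_iter]
    show (red p w.1, red p (sS w.1 w.2.1 w.2.2 i), red p (sS w.1 w.2.1 w.2.2 (i + 1))) = _
    rw [map_sS, map_sS, hwg]
  have hP1 : (red3 p w0).1 ^ 2 ≠ 4 := by rw [hr0]; exact hx4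
  have hP2 : (red3 p w0).2.1 ^ 2 ≠ 4 := by rw [hr0]; exact hi1
  have hP3 : 2 * (red3 p w0).2.2 - (red3 p w0).1 * (red3 p w0).2.1 ≠ 0 := by rw [hr0]; exact hi2
  have hP4 := hsurf w0 (hYX w0 hw0Y)
  have hfull : ∀ u ∈ Xs D, red3 p u ∈ red3 p '' orb p v → u ∈ orb p v := by
    rcases hFIB hPER hVAR hHEN hTRV hFCO p (by omega) D (red3 p w0) hP1 hP2 hP3 hP4 (orb p v)
      (fun u hu => hrY _ u hu) (fun u hu => hsY _ (hrY _ _ (hsY u hu))) with h | h | ⟨Q0, hQ0, hQr, h⟩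
    · rintro u hu ⟨y, hy, hyu⟩
      obtain ⟨f, hf, hf1, hf2, hf3⟩ := transport p D v y w0 hy hw0Y
      exact (hf2 u).2 (h (f u) ((hf1 u).1 hu) ((hf3 u).1 hyu.symm))
    · exact absurd hw0Y (h w0 (hYX w0 hw0Y) rfl)
    · exfalso
      obtain ⟨ε, hε⟩ : ∃ ε : Prop, ∀ u ∈ Xs D, red3 p u = red3 p w0 →
          ((u ∈ orb p v ↔ ε) ↔ u = Q0) := by
        rcases h with h | h
        · exact ⟨True, fun u hu hr => by rw [h u hu hr]; simp⟩
        · exact ⟨False, fun u hu hr => by rw [h u hu hr]; simp⟩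
      let Sp : ZMod (p ^ 2) × ZMod (p ^ 2) × ZMod (p ^ 2) → Prop := fun u =>
        u ∈ Xs D ∧ (∃ y ∈ orb p v, red3 p u = red3 p y) ∧ (u ∈ orb p v ↔ ε)
      have hex : ∀ y ∈ orb p v, ∃ u, Sp u ∧ red3 p u = red3 p y := by
        intro y hy
        obtain ⟨f, hf, hf1, hf2, hf3⟩ := transport p D v w0 y hw0Y hy
        have hr := (hf3 Q0).1 hQr
        exact ⟨f Q0, ⟨(hf1 Q0).1 hQ0, ⟨y, hy, hr⟩, (hf2 Q0).symm.trans ((hε Q0 hQ0 hQr).2 rfl)⟩, hr⟩
      have huniq : ∀ u u', Sp u → Sp u' → red3 p u = red3 p u' → u = u' := by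
        rintro u u' ⟨hu1, ⟨y, hy, hyu⟩, hu2⟩ ⟨hu1', -, hu2'⟩ hr
        obtain ⟨f, hf, hf1, hf2, hf3⟩ := transport p D v y w0 hy hw0Y
        have e1 : f u = Q0 := (hε (f u) ((hf1 u).1 hu1) ((hf3 u).1 hyu)).1 ((hf2 u).symm.trans hu2)
        have e2 : f u' = Q0 := (hε (f u') ((hf1 u').1 hu1') ((hf3 u').1 (hr.symm.trans hyu))).1
          ((hf2 u').symm.trans hu2')
        exact f.injective (e1.trans e2.symm)
      have hinv : ∀ f ∈ AutX (ZMod (p ^ 2)), ∀ u, Sp u → Sp (f u) := by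
        rintro f hf u ⟨hu1, ⟨y, hy, hyu⟩, hu2⟩
        obtain ⟨f', -, hf'⟩ := autX_map (red p) f hf
        refine ⟨(autX_Xs p D f hf u).1 hu1, ⟨f y, (orb_iff p v f hf y).1 hy, ?_⟩,
          (orb_iff p v f hf u).symm.trans hu2⟩
        rw [red3_eq, hf', hf', ← red3_eq, hyu]
      have hrSp : ∀ n u, Sp u → Sp (rX^[n] u) := by
        intro n u hu
        obtain ⟨r, hr1, hr2⟩ := rX_iter_mem (ZMod (p ^ 2)) n
        rw [← hr2]
        exact hinv r hr1 u hu
      have hsSp : ∀ u, Sp u → Sp (swp u) := by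
        intro u hu
        obtain ⟨r, hr1, hr2⟩ := swp_mem (ZMod (p ^ 2))
        rw [← hr2]
        exact hinv r hr1 u hu
      have hc1 : ∀ u, Sp u → sC u.1 p = u.1 := by
        intro u hu
        exact special_coord p hPER hVAR hCFX (by omega) D hD4 hD u hu.1
          (fun n hn => huniq _ _ (hrSp n u hu) hu hn)
      have hc2 : ∀ u, Sp u → sC u.2.1 p = u.2.1 := fun u hu => hc1 (swp u) (hsSp u hu)
      obtain ⟨u, hu, hur⟩ := hex w hw
      have hux : red p u.1 = g + g⁻¹ := by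
        rw [← hwg]
        exact congrArg (fun t => t.1) hur
      obtain ⟨ζ, A, B, hζ1, hζ2, hAB, hseq⟩ := hLFT hCFX p (by omega) u.1 u.2.1 u.2.2 g hg hux
        (hc1 u hu)
      have hABr : red p A * red p B * (4 - (g + g⁻¹) ^ 2) = red p D - (g + g⁻¹) ^ 2 := by
        have h1 := congrArg (red p) hAB
        simp only [map_mul, map_sub, map_add, map_pow, map_ofNat, hux] at h1
        have h2 := hsurf u hu.1
        rw [hux] at h2
        linear_combination h1 + h2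
      obtain ⟨k, hk⟩ := hFIN p hp ζ A B hζ1 (by rw [hζ2]; exact hg)
        (by
          intro h0
          rw [h0, zero_mul] at hABr
          exact hxD (sub_eq_zero.1 hABr.symm).symm)
        (by
          intro h1
          rw [h1, one_mul] at hABr
          exact hD4 (by linear_combination -hABr))
      apply hk
      rw [← hseq k]
      have h5 := hc2 _ (hrSp k u hu)
      rw [rX_iter] at h5
      exact h5
  refine ⟨hfull, ?_⟩
  -- the number of points
  have hcard0 := (hHEN p (by omega) D (red3 p w0) hP3 hP4).2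
  have hcard : ∀ y ∈ orb p v, {u | u ∈ Xs D ∧ red3 p u = red3 p y}.ncard = p ^ 2 := by
    intro y hy
    obtain ⟨f, hf, hf1, hf2, hf3⟩ := transport p D v w0 y hw0Y hy
    refine Eq.trans ?_ hcard0
    have : {u | u ∈ Xs D ∧ red3 p u = red3 p y} = f '' {u | u ∈ Xs D ∧ red3 p u = red3 p w0} := by
      ext u
      constructor
      · rintro ⟨h1, h2⟩
        obtain ⟨t, rfl⟩ := f.surjective u
        exact ⟨t, ⟨(hf1 t).2 h1, (hf3 t).2 h2⟩, rfl⟩
      · rintro ⟨t, ⟨h1, h2⟩, rfl⟩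
        exact ⟨(hf1 t).1 h1, (hf3 t).1 h2⟩
    rw [this, Set.ncard_image_of_injective _ f.injective]
  have hfinite : (orb p v).Finite := Set.toFinite _
  have himg : (red3 p '' orb p v).ncard = (hfinite.toFinset.image (red3 p)).card := by
    rw [← Set.ncard_coe_finset, Finset.coe_image, Set.Finite.coe_toFinset]
  rw [himg, Nat.card_coe_set_eq, Set.ncard_eq_toFinset_card _ hfinite,
    Finset.card_eq_sum_card_image (red3 p) hfinite.toFinset, mul_comm]
  refine Finset.sum_const_nat fun P hP => ?_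
  obtain ⟨y, hy, rfl⟩ := Finset.mem_image.1 hP
  rw [Set.Finite.mem_toFinset] at hy
  have : ((hfinite.toFinset.filter fun a => red3 p a = red3 p y) :
      Finset (ZMod (p ^ 2) × ZMod (p ^ 2) × ZMod (p ^ 2))).card = p ^ 2 := by
    refine Eq.trans ?_ (hcard y hy)
    rw [← Set.ncard_coe_finset]
    congr 1
    ext u
    simp only [Finset.coe_filter, Set.Finite.mem_toFinset, Set.mem_ofPred_eq]
    constructor
    · rintro ⟨h1, h2⟩
      exact ⟨hYX u h1, h2⟩
    · rintro ⟨h1, h2⟩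
      exact ⟨hfull u h1 ⟨y, hy, h2.symm⟩, h2⟩
  exact this

end main

end Pool.Agent.J6H98.MK
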