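import Mathlib

/-!
# Project MK (helper98): MP_60c97f_nt, orbits on Markoff-type surfaces modulo `p ^ 2`

Definitions and statements of the modules. Module `XX` is a file in your own folder (or
`Pool/Agent/J6H98/MK/XX.lean`) with `import Pool.Agent.J6H98.MK.Stm` and `theorem t_XX : S_XX`.
-/

set_option autoImplicit false

open Polynomial

namespace Pool.Agent.J6H98.MK

/-- `sU x n = U_(n-1)`: `0, 1, x, x^2 - 1, ...`; for `x = ζ + ζ⁻¹` it is `(ζ^n - ζ^(-n)) / (ζ - ζ⁻¹)` -/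
def sU {R : Type} [CommRing R] (x : R) : ℕ → R
  | 0 => 0
  | 1 => 1
  | n + 2 => x * sU x (n + 1) - sU x n

/-- the Dickson polynomials `2, x, x^2 - 2, ...`; for `x = ζ + ζ⁻¹` it is `ζ^n + ζ^(-n)` -/
def sC {R : Type} [CommRing R] (x : R) : ℕ → R
  | 0 => 2
  | 1 => x
  | n + 2 => x * sC x (n + 1) - sC x n

/-- the sequence `a, b, x b - a, ...` -/
def sS {R : Type} [CommRing R] (x a b : R) : ℕ → R
  | 0 => a
  | 1 => b
  | n + 2 => x * sS x a b (n + 1) - sS x a b n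

/-- reduction modulo `p` -/
noncomputable def red (p : ℕ) : ZMod (p ^ 2) →+* ZMod p :=
  ZMod.castHom (dvd_pow_self p two_ne_zero) (ZMod p)

/-- **PER**. Let `Δ = x^2 - 4 ≠ 0` and `M = !![0, 1; -1, x]` (so `M ^ n = !![-sU (n-1), sU n; -sU n, sU (n+1)]`).
`(2 M - x)^2 = Δ`, so by Frobenius (`M` commutes with scalars, `add_pow_char_of_commute`)
`2 M^p - x = (2 M - x)^p = Δ^((p-1)/2) (2 M - x) = ± (2 M - x)`, hence `M ^ (p^2) = M`, `M ^ (p^2 - 1) = 1`. (Or in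
`AlgebraicClosure (ZMod p)`: `x = ζ + ζ⁻¹`, `(ζ - ζ⁻¹) sU x n = ζ^n - ζ^(-n)`, `ζ^p ∈ {ζ, ζ⁻¹}` since `ζ^p` is a root of
`T^2 - x T + 1`, so `ζ^(p^2) = ζ`.) If `x = 2`: `sU 2 n = n`; if `x = -2`: `sU (-2) n = (-1)^(n+1) n`. -/
def S_PER : Prop :=
  ∀ (p : ℕ) [Fact p.Prime], p ≠ 2 → ∀ x : ZMod p,
    (x ^ 2 ≠ 4 → sU x (p ^ 2 - 1) = 0 ∧ sU x (p ^ 2) = 1) ∧
    (x ^ 2 = 4 → sU x (2 * p) = 0 ∧ sU x (2 * p + 1) = 1)

/-- **VAR**. Let `y = x + p u` (`ZMod.castHom` kernel). `sU` is a polynomial in `x`, so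
`sU (x + p u) n = sU x n + p u sU' x n` where `sU'` is the derivative (define it by the recursion
`0, 0, sU' (n+2) = sU (n+1) + x sU' (n+1) - sU' n`); `(x^2 - 4) sU' x n = n sC x n - x sU x n` (induction).
For `n = p^2 - 1`: modulo `p` `sU = 0`, `sC x n = 2 sU x (n + 1) - x sU x n = 2` (`S_PER`), so `(x^2 - 4) sU' = -2 ≠ 0`,
so `p u = 0`. For `x = ± 2 + p u`: `sU (± 2) (2p) = ± 2 p` (sign `-` for `-2`), and `6 sU' (± 2) n = (± 1)^n n (n^2 - 1)`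
(`n^3 - n`; check the sign), divisible by `p` for `n = 2 p`, `5 ≤ p`. -/
def S_VAR : Prop := S_PER →
  ∀ (p : ℕ) [Fact p.Prime], 5 ≤ p →
    (∀ x y : ZMod (p ^ 2), red p x = red p y → (red p x) ^ 2 ≠ 4 →
      sU x (p ^ 2 - 1) = sU y (p ^ 2 - 1) → x = y) ∧
    (∀ x : ZMod (p ^ 2), (red p x) ^ 2 = 4 → sU x (2 * p) ≠ 0)

/-- **CFX**. First part: `sC (x + p u) n = sC x n + p u n sU x n` in `ZMod (p^2)` (the derivative of `sC x n` is
`n sU x n`), so for `n = p` nothing changes. Second part: `sC x n = 2 sU x (n + 1) - x sU x n`, so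
`sC x (p^2) = x`; `sC x (m n) = sC (sC x m) n`, so with `x' = sC x p` one has `sC x' p = x`. Modulo `p`, `x' = x` since
`sC x p = x^p` (Mathlib: `dickson 1 1 p = X^p` modulo `p`, `Polynomial.dickson_one_one_zmod_p`). So by the first part
`x' = sC x p = sC x' p = x`. -/
def S_CFX : Prop :=
  ∀ (p : ℕ) [Fact p.Prime], p ≠ 2 →
    (∀ x y : ZMod (p ^ 2), red p x = red p y → sC x p = sC y p) ∧
    (∀ x : ZMod (p ^ 2), sU x (p ^ 2 - 1) = 0 → sU x (p ^ 2) = 1 → sC x p = x)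

/-- **LFT**. Let `g'` be a lift of `g`, `ζ = g' ^ p` (Teichmueller): `ζ^(p-1) = 1` (the units have order
`p (p - 1)`), `red ζ = g`, with inverse `η = ζ^(p-2)`. `sC (ζ + η) p = ζ^p + η^p = ζ + η` and
`red (ζ + η) = red x`, so by the first part of `S_CFX` `x = sC x p = ζ + η`. As `g^2 ≠ 1`, `ζ - η` is a unit;
solve `A + B = a`, `A ζ + B η = b`. -/
def S_LFT : Prop := S_CFX →
  ∀ (p : ℕ) [Fact p.Prime], 5 ≤ p → ∀ (x a b : ZMod (p ^ 2)) (g : ZMod p),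
    orderOf g = p - 1 → red p x = g + g⁻¹ → sC x p = x →
    ∃ ζ A B : ZMod (p ^ 2), ζ ^ (p - 1) = 1 ∧ red p ζ = g ∧
      A * B * (4 - x ^ 2) = a ^ 2 - x * a * b + b ^ 2 ∧
      ∀ n, sS x a b n = A * ζ ^ n + B * ζ ^ ((p - 2) * n)

/-- the homogenised Dickson polynomials: `pE A B n (t^2) = t^n C_n(A t + B / t)` -/
noncomputable def pE {R : Type} [CommRing R] (A B : R) : ℕ → R[X]
  | 0 => 2
  | 1 => C A * X + C B
  | n + 2 => (C A * X + C B) * pE A B (n + 1) - X * pE A B n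

/-- the same for `sU` -/
noncomputable def pG {R : Type} [CommRing R] (A B : R) : ℕ → R[X]
  | 0 => 0
  | 1 => 1
  | n + 2 => (C A * X + C B) * pG A B (n + 1) - X * pG A B n

/-- **CHP**. In characteristic `p`. Let `Y = A X + B`, `K` an algebraic closure of the fraction field of `F_p[X]`,
`δ ∈ K` with `δ^2 = Y^2 - 4 X`, `α, β = (Y ± δ) / 2`: `α + β = Y`, `α β = X`, so `pE n = α^n + β^n`,
`δ pG n = α^n - β^n` (induction), and `α^p + β^p = Y^p = A^p X^p + B^p`, `α^p - β^p = δ^p = δ (δ^2)^((p-1)/2)`;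
`δ ≠ 0` since `Y^2 - 4 X ≠ 0` (its coefficient of `X^2` is `A^2 ≠ 0`). -/
def S_CHP : Prop :=
  ∀ (p : ℕ) [Fact p.Prime], p ≠ 2 → ∀ A B : ZMod p, A ≠ 0 →
    pE A B p = C (A ^ p) * X ^ p + C (B ^ p) ∧
    pG A B p = ((C A * X + C B) ^ 2 - 4 * X) ^ ((p - 1) / 2)

/-- **ORT**. Let `m = (p - 1) / 2`, `ξ = ζ^2`, `ξ^m = 1`, and `ξ^l - 1` is a unit if `m ∤ l`. `f` has degree at most `p`
and `f (ξ^i) = a ξ^i + b` for all `i`. Take `∑_{i < m} ξ^(i (m - j)) (f (ξ^i) - a ξ^i - b) = 0`: the coefficient sum of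
the exponents congruent to `j` modulo `m` is zero (times `m`, a unit); for `2 ≤ j < m` these are `j` and `j + m`
(`j + 2 m > p`). -/
def S_ORT : Prop :=
  ∀ (p : ℕ) [Fact p.Prime], 5 ≤ p → ∀ (ζ a b : ZMod (p ^ 2)) (f : (ZMod (p ^ 2))[X]),
    ζ ^ (p - 1) = 1 → orderOf (red p ζ) = p - 1 → f.natDegree ≤ p →
    (∀ i : ℕ, f.eval (ζ ^ (2 * i)) = a * ζ ^ (2 * i) + b) →
    ∀ j, 2 ≤ j → j < (p - 1) / 2 → f.coeff j + f.coeff (j + (p - 1) / 2) = 0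

/-- **ALG**. Let `e k = P (k-1) - P k`, `f k = W (k-1) - W k`. The recursion for `W` gives
`(2 j + 1) f (j+1) - (2 j - 1) f j = 4 j (1 - c) W j`, hence
`(j+1) ((2j+1) f (j+1) - (2j-1) f j) - j ((2j+3) f (j+2) - (2j+1) f (j+1)) = 4 j (j+1) (1-c) f (j+1)` for `j ≥ 1`; use it for `j = 2`,
`j = 3` with `2 k f k = - (2 k - 1) e k`, `k = 2, ..., 5` (`13 ≤ p`). All `e k` are polynomials in `c` divisible by `1 - c`.
One gets (after division by powers of `c - 1` and by 2, 3, 5, 7)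
`345 c^2 + 430 c + 77 = 0`, `7308 c^3 + 9681 c^2 + 1234 c - 1063 = 0`, with resultant `2^4 3^7 3623 * 14557`. If `p` is
`3623` or `14557` use also `j = 4` (`k = 6`): `14700 c^4 + 20076 c^3 + 357 c^2 - 5702 c - 751 = 0`; its resultant with the first
is `2^4 3^3 5 * 43 * 62627 * 84751`. -/
def S_ALG : Prop :=
  ∀ (p : ℕ) [Fact p.Prime], 13 ≤ p → ∀ (c : ZMod p) (P W : ℕ → ZMod p), c ≠ 1 → P 0 = 1 → P 1 = c →
    (∀ k : ℕ, ((k : ZMod p) + 2) * P (k + 2) =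
      (2 * (k : ZMod p) + 3) * c * P (k + 1) - ((k : ZMod p) + 1) * P k) →
    (∀ k : ℕ, (2 * (k : ZMod p) + 3) * W (k + 2) =
      4 * ((k : ZMod p) + 1) * c * W (k + 1) - (2 * (k : ZMod p) + 1) * W k) →
    ¬ ∀ k : ℕ, k + 2 < (p - 1) / 2 →
      (2 * (k : ZMod p) + 3) * (P (k + 1) - P (k + 2)) + 2 * ((k : ZMod p) + 2) * (W (k + 1) - W (k + 2)) = 0

/-- the finite part (helper98) -/
def S_FIN : Prop :=
  ∀ (p : ℕ) [Fact p.Prime], 13 ≤ p → ∀ ζ A B : ZMod (p ^ 2), ζ ^ (p - 1) = 1 →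
    orderOf (red p ζ) = p - 1 → red p A * red p B ≠ 0 → red p A * red p B ≠ 1 →
    ∃ i : ℕ, sC (A * ζ ^ i + B * ζ ^ ((p - 2) * i)) p ≠ A * ζ ^ i + B * ζ ^ ((p - 2) * i)

end Pool.Agent.J6H98.MK
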