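import Pool.Agent.J6H98.MK.Stm

/-!
# Project MK (helper98), second part: points and fibres
-/

set_option autoImplicit false

namespace Pool.Agent.J6H98.MK

/-- the points of `X_D^*(R)` -/
def Xs {R : Type} [CommRing R] (D : R) : Set (R × R × R) :=
  {w | w.1 ^ 2 + w.2.1 ^ 2 + w.2.2 ^ 2 = w.1 * w.2.1 * w.2.2 + D ∧
    (IsUnit (2 * w.1 - w.2.1 * w.2.2) ∨ IsUnit (2 * w.2.1 - w.1 * w.2.2) ∨
      IsUnit (2 * w.2.2 - w.1 * w.2.1))}

/-- the rotation `(x, y, z) ↦ (x, z, x z - y)` -/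
def rX {R : Type} [CommRing R] (w : R × R × R) : R × R × R := (w.1, w.2.2, w.1 * w.2.2 - w.2.1)

/-- reduction modulo `p` of a point -/
noncomputable def red3 (p : ℕ) (w : ZMod (p ^ 2) × ZMod (p ^ 2) × ZMod (p ^ 2)) :
    ZMod p × ZMod p × ZMod p := (red p w.1, red p w.2.1, red p w.2.2)

/-- **HEN**, Hensel. `c = c₀ + p u`, `c₀` a lift of `P.2.2`: the equation at `(a, b, c)` is
`F(a, b, c₀) + p u (2 c₀ - a b) = 0`, `F(a, b, c₀)` is a multiple of `p`, `2 c₀ - a b` is a unit (an element of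
`ZMod (p^2)` is a unit iff its reduction is not zero; `red p x = 0` iff `x` is a multiple of `p`). There are `p` lifts
`a` and `p` lifts `b` (all fibres of `red p` have the same cardinality, `p^2 / p`), so `p^2` points. -/
def S_HEN : Prop :=
  ∀ (p : ℕ) [Fact p.Prime], p ≠ 2 → ∀ (D : ZMod (p ^ 2)) (P : ZMod p × ZMod p × ZMod p),
    2 * P.2.2 - P.1 * P.2.1 ≠ 0 →
    P.1 ^ 2 + P.2.1 ^ 2 + P.2.2 ^ 2 = P.1 * P.2.1 * P.2.2 + red p D →
    (∀ a b : ZMod (p ^ 2), red p a = P.1 → red p b = P.2.1 →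
      ∃! c : ZMod (p ^ 2), red p c = P.2.2 ∧ (a, b, c) ∈ Xs D) ∧
    {w | w ∈ Xs D ∧ red3 p w = P}.ncard = p ^ 2

/-- **TRV**, transvections. Write `w = (x, y, z)`, `m = p^2 - 1`, `b = sU x m`, `a = sU x (m - 1) + 1`; by `S_PER` `b` and
`a` are multiples of `p` (`sU x (m-1) = x sU x m - sU x (m+1)`), and by
`sU x (n+1)^2 - x sU x (n+1) sU x n + sU x n^2 = 1` and `p^2 = 0` one has `2 a = x b`. As
`rX^[n] (x, y, z) = (x, sS x y z n, sS x y z (n+1))` and `sS x y z n = sU x n * z - sU x (n-1) * y`, one gets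
`rX^[m] (x, y, z) = (x, y + b (2 z - x y) / 2, z')`. The increment is `b` times something which only depends on the
reduction (`b` is a multiple of `p`), so `rX^[m j]` adds `j b (2 z - x y) / 2 = p j u`, `u` a unit: for a suitable `j`
the first two coordinates of `rX^[m j] w` and `w'` agree. `rX` preserves `Xs D` (the equation; and the third
partial derivative stays a unit since the reduction of the point does not change under `rX^[m]`), so by uniqueness
(Hensel: `z` is determined by `x, y` and its reduction: if `(x, y, z), (x, y, z')` are both solutions then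
`(z - z') (z + z' - x y) = 0` and the second factor is a unit) the points agree. -/
def S_TRV : Prop := S_PER →
  ∀ (p : ℕ) [Fact p.Prime], 5 ≤ p → ∀ (D : ZMod (p ^ 2)),
    ∀ w ∈ Xs D, ∀ w' ∈ Xs D, red3 p w = red3 p w' → w.1 = w'.1 → (red p w.1) ^ 2 ≠ 4 →
      red p (2 * w.2.2 - w.1 * w.2.1) ≠ 0 → sU w.1 (p ^ 2 - 1) ≠ 0 →
      ∃ j : ℕ, rX^[(p ^ 2 - 1) * j] w = w'

/-- **FCO**, combinatorics of a grid with one special column `a₀` and one special row `b₀`. -/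
def S_FCO : Prop :=
  ∀ (α β : Type) [Nontrivial α] [Nontrivial β] (a₀ : α) (b₀ : β) (S : Set (α × β)),
    (∀ a, a ≠ a₀ → ∀ b b', (a, b) ∈ S → (a, b') ∈ S) →
    (∀ b, b ≠ b₀ → ∀ a a', (a, b) ∈ S → (a', b) ∈ S) →
    (∀ q, q ∈ S) ∨ (∀ q, q ∉ S) ∨ (∀ q, q ∈ S ↔ q = (a₀, b₀)) ∨ (∀ q, q ∈ S ↔ q ≠ (a₀, b₀))

end Pool.Agent.J6H98.MK
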