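import Pool.Agent.J6H98.MK.Stm2

/-!
# Project MK (helper98), third part
-/

set_option autoImplicit false

namespace Pool.Agent.J6H98.MK

/-- exchange the first two coordinates -/
def swp {R : Type} (w : R × R × R) : R × R × R := (w.2.1, w.1, w.2.2)

/-- **FIB**, the fibre. `m = p^2 - 1`. Let `α = {a // red p a = P.1}`, `β = {b // red p b = P.2.1}` (both have `p ≥ 2`
elements), `pt (a, b) = (a, b, c)` the unique point above (`S_HEN`), `S = {(a, b) | pt (a, b) ∈ Y}`. There is a unique `a₀ ∈ α`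
with `sU a₀ m = 0`: `a ↦ sU a m` is injective on `α` (`S_VAR`) with values in the multiples of `p` (`S_PER`; `p`
elements; the kernel of `red p`), so it is bijective onto them. For `a ≠ a₀`, `b, b' ∈ β` `S_TRV` for `w = pt (a, b)`,
`w' = pt (a, b')` gives `j` with `rX^[m j] w = w'`, so `w ∈ Y → w' ∈ Y` (`Function.iterate_mul`). For the rows the same with
`swp` (`swp` preserves `Xs D`, `2 z - x y` is symmetric; `swp ∘ rX^[m] ∘ swp` iterated is `swp ∘ rX^[m j] ∘ swp`). Now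
`S_FCO` with `Q = pt (a₀, b₀)`. -/
def S_FIB : Prop := S_PER → S_VAR → S_HEN → S_TRV → S_FCO →
  ∀ (p : ℕ) [Fact p.Prime], 5 ≤ p → ∀ (D : ZMod (p ^ 2)) (P : ZMod p × ZMod p × ZMod p),
    P.1 ^ 2 ≠ 4 → P.2.1 ^ 2 ≠ 4 → 2 * P.2.2 - P.1 * P.2.1 ≠ 0 →
    P.1 ^ 2 + P.2.1 ^ 2 + P.2.2 ^ 2 = P.1 * P.2.1 * P.2.2 + red p D →
    ∀ Y : Set (ZMod (p ^ 2) × ZMod (p ^ 2) × ZMod (p ^ 2)),
      (∀ w ∈ Y, rX^[p ^ 2 - 1] w ∈ Y) → (∀ w ∈ Y, swp (rX^[p ^ 2 - 1] (swp w)) ∈ Y) →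
      (∀ w ∈ Xs D, red3 p w = P → w ∈ Y) ∨ (∀ w ∈ Xs D, red3 p w = P → w ∉ Y) ∨
      ∃ Q ∈ Xs D, red3 p Q = P ∧ ((∀ w ∈ Xs D, red3 p w = P → (w ∈ Y ↔ w = Q)) ∨
        (∀ w ∈ Xs D, red3 p w = P → (w ∈ Y ↔ w ≠ Q)))

/-- **GPT**, a good point of the conic. `x = g + g⁻¹`, `x^2 - 4 = (g - g⁻¹)^2 ≠ 0`. There are `a, b` with
`sS x y₀ y₁ n = a g^n + b g⁻¹^n` for all `n` (solve `a + b = y₀`, `a g + b g⁻¹ = y₁`), and `a b (4 - x^2) = y₀^2 - x y₀ y₁ + y₁^2`,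
so `a b ≠ 0`; `2 s (i+1) - x s i = (g - g⁻¹) (a g^i - b g⁻¹^i)`. If there is no such `i`, then every `t = g^i`, i.e. every
`t ≠ 0` of `F_p` (`orderOf g = p - 1`), is a root of the nonzero polynomial
`(a X^2 - 2 X + b) (a X^2 + 2 X + b) (a X^2 - b)` of degree 6, but `p - 1 ≥ 12`. -/
def S_GPT : Prop :=
  ∀ (p : ℕ) [Fact p.Prime], 13 ≤ p → ∀ g y₀ y₁ : ZMod p, orderOf g = p - 1 →
    y₀ ^ 2 - (g + g⁻¹) * y₀ * y₁ + y₁ ^ 2 ≠ 0 →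
    ∃ i : ℕ, (sS (g + g⁻¹) y₀ y₁ i) ^ 2 ≠ 4 ∧
      2 * sS (g + g⁻¹) y₀ y₁ (i + 1) - (g + g⁻¹) * sS (g + g⁻¹) y₀ y₁ i ≠ 0

end Pool.Agent.J6H98.MK
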